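import Pool.Agent.T6.H35.AF.Spec
import Pool.Agent.T6.H35.RS.Fib

set_option autoImplicit false

/-!
# Automata with values on affine varieties
-/

namespace Pool.Agent.T6.H35.AF

open Pool.Agent.T6.H35.RS (Neat Pth mapRep Accepted edges edges_finite pth_free pth_dfa lift_prod
  IsRational)
open Polynomial

theorem link_map {k L : Type} [Field k] [Field L] [Algebra k L] {n : ℕ}
    (FF : Set (MvPolynomial (Fin n) k)) (a b : Fin n → L) :
    Link (MvPolynomial.map (algebraMap k L) '' FF) a b ↔ Link FF a b := by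
  have h1 : ∀ (x : Fin n → L), (∀ F ∈ MvPolynomial.map (algebraMap k L) '' FF,
      MvPolynomial.aeval x F = 0) ↔ ∀ F ∈ FF, MvPolynomial.aeval x F = 0 := by
    intro x
    rw [Set.forall_mem_image]
    refine forall₂_congr fun F _ => ?_
    rw [MvPolynomial.aeval_def, MvPolynomial.aeval_def, MvPolynomial.eval₂_map]
    rfl
  unfold Link
  simp only [h1]

theorem conn_map {k L : Type} [Field k] [Field L] [Algebra k L] {n : ℕ}
    (FF : Set (MvPolynomial (Fin n) k)) (a b : Fin n → L) :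
    Conn (MvPolynomial.map (algebraMap k L) '' FF) a b ↔ Conn FF a b := by
  have : Link (MvPolynomial.map (algebraMap k L) '' FF) = (Link FF : (Fin n → L) → _ → Prop) := by
    funext a b
    exact propext (link_map FF a b)
  unfold Conn
  rw [this]

/-- `a` lies on the closed set given by `FF` -/
def OnW {k K : Type} [Field k] [Field K] [Algebra k K] {n : ℕ}
    (FF : Set (MvPolynomial (Fin n) k)) (a : Fin n → K) : Prop :=
  ∀ F ∈ FF, MvPolynomial.aeval a F = 0

/-- the uniform theorem for closed sets over a field `k` and representations over `K ⊇ k` -/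
theorem uniform_bar {S : Type} [Monoid S] {V : Type} [Finite V] (E : V → V → Set S)
    (hE : ∀ i j, (E i j).Finite) (n d s : ℕ) :
    ∃ R : V → V → Set S, (∀ i j, R i j ⊆ {z | Pth E i j z}) ∧ (∀ i j, (R i j).Finite) ∧
      ∀ (k : Type) [Field k] [CharZero k] (FF : Set (MvPolynomial (Fin n) k)),
        (∀ F ∈ FF, F.totalDegree ≤ d) →
        ∀ (K : Type) [Field K] [Algebra k K] (ρ : S →* Matrix (Fin s) (Fin s) K) (i j : V)
          (z : S), Pth E i j z →
          Dom (fun a : Fin n → K => OnW FF a) (fun a b => Conn FF (up K a) (up K b)) ρ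
            {z | Pth E i j z} (R i j) z := by
  obtain ⟨R, hR1, hR2, hR3⟩ := uniform E hE n d s
  refine ⟨R, hR1, hR2, ?_⟩
  intro k _ _ FF hdeg K _ _ ρ i j z hz
  have hK0 : CharZero K := charZero_of_injective_algebraMap (FaithfulSMul.algebraMap_injective k K)
  let L := AlgebraicClosure K
  have hL0 : CharZero L := charZero_of_injective_algebraMap (algebraMap K L).injective
  let φ : K →+* L := algebraMap K L
  have hdeg' : ∀ F ∈ MvPolynomial.map (algebraMap k L) '' FF, F.totalDegree ≤ d := by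
    rintro _ ⟨F, hF, rfl⟩
    exact (Finset.sup_mono (MvPolynomial.support_map_subset _ _)).trans (hdeg F hF)
  obtain ⟨r, hr, h⟩ := hR3 L (MvPolynomial.map (algebraMap k L) '' FF) hdeg' (mapRep φ ρ) i j z hz
  refine ⟨r, hr, fun A y h1 => ?_⟩
  have e : ∀ x : S, val (A.map φ) (mapRep φ ρ x) (φ ∘ y) = up K (val A (ρ x) y) := by
    intro x
    unfold val
    have h1 : (mapRep φ ρ x).mulVec (φ ∘ y) = φ ∘ ((ρ x).mulVec y) := by
      funext i
      exact (RingHom.map_mulVec φ (ρ x) y i).symm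
    rw [h1]
    funext i
    exact (RingHom.map_mulVec φ A _ i).symm
  have h2 := h (A.map φ) (φ ∘ y) (by
    rintro x hx _ ⟨F, hF, rfl⟩
    rw [e]
    have h3 : MvPolynomial.aeval (up K (val A (ρ x) y)) (MvPolynomial.map (algebraMap k L) F) =
        MvPolynomial.aeval (up K (val A (ρ x) y)) F := by
      rw [MvPolynomial.aeval_def, MvPolynomial.aeval_def, MvPolynomial.eval₂_map]
      rfl
    rw [h3]
    have h4 : MvPolynomial.aeval (up K (val A (ρ x) y)) F =
        φ (MvPolynomial.aeval (val A (ρ x) y) F) :=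
      MvPolynomial.aeval_algebraMap_apply (A := K) L _ F
    rw [h4, h1 x hx F hF, map_zero])
  rw [e, e, conn_map] at h2
  exact h2

/-- **Uniform bound for the size of sets of representatives** -/
theorem uniform_aut (n d s v e : ℕ) : ∃ B : ℕ, ∀ (S : Type) [Monoid S] (𝓛 : Set S),
    Accepted v e 𝓛 → ∃ 𝓕 ⊆ 𝓛, 𝓕.encard ≤ (B : ℕ∞) ∧
      ∀ (k : Type) [Field k] [CharZero k] (FF : Set (MvPolynomial (Fin n) k)),
        (∀ F ∈ FF, F.totalDegree ≤ d) →
        ∀ (K : Type) [Field K] [Algebra k K] (ρ : S →* Matrix (Fin s) (Fin s) K), ∀ z ∈ 𝓛,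
          Dom (fun a : Fin n → K => OnW FF a) (fun a b => Conn FF (up K a) (up K b)) ρ 𝓛 𝓕 z := by
  classical
  have h1 : ∀ sh : (Fin e → Fin v) × (Fin e → Fin v),
      _ := fun sh => uniform_bar (edges sh.1 sh.2 (FreeMonoid.of (α := Fin e)))
        (edges_finite sh.1 sh.2 _) n d s
  choose R hR1 hR2 hR3 using h1
  let B : ℕ := ∑ sh : (Fin e → Fin v) × (Fin e → Fin v), (⋃ c : Fin v × Fin v, R sh c.1 c.2).ncard
  refine ⟨B, ?_⟩
  rintro S _ _ ⟨src, tgt, lab, I, F, rfl⟩
  let h : FreeMonoid (Fin e) →* S := FreeMonoid.lift lab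
  refine ⟨{z | ∃ i ∈ I, ∃ j ∈ F, ∃ w ∈ R (src, tgt) i j, h w = z}, ?_, ?_, ?_⟩
  · rintro _ ⟨i, hi, j, hj, w, hw, rfl⟩
    exact ⟨i, hi, j, hj, (pth_free src tgt lab i j _).2 ⟨w, hR1 (src, tgt) i j hw, rfl⟩⟩
  · have h2 : {z | ∃ i ∈ I, ∃ j ∈ F, ∃ w ∈ R (src, tgt) i j, h w = z} ⊆
        h '' (⋃ c : Fin v × Fin v, R (src, tgt) c.1 c.2) := by
      rintro _ ⟨i, hi, j, hj, w, hw, rfl⟩
      exact ⟨w, Set.mem_iUnion.2 ⟨(i, j), hw⟩, rfl⟩
    have hfin : (⋃ c : Fin v × Fin v, R (src, tgt) c.1 c.2).Finite :=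
      Set.finite_iUnion fun c => hR2 _ c.1 c.2
    refine (Set.encard_le_encard h2).trans ((Set.encard_image_le _ _).trans ?_)
    rw [← hfin.cast_ncard_eq]
    have h3 : (⋃ c : Fin v × Fin v, R (src, tgt) c.1 c.2).ncard ≤ B :=
      Finset.single_le_sum (f := fun sh : (Fin e → Fin v) × (Fin e → Fin v) =>
        (⋃ c : Fin v × Fin v, R sh c.1 c.2).ncard) (fun _ _ => Nat.zero_le _)
        (Finset.mem_univ (src, tgt))
    exact_mod_cast h3
  · rintro k _ _ FF hdeg K _ _ ρ z ⟨i, hi, j, hj, hz⟩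
    obtain ⟨w, hw, rfl⟩ := (pth_free src tgt lab i j z).1 hz
    obtain ⟨r, hr, h4⟩ := hR3 (src, tgt) k FF hdeg K (ρ.comp h) i j w hw
    refine ⟨h r, ⟨i, hi, j, hj, r, hr, rfl⟩, fun A y h2 => ?_⟩
    exact h4 A y
      (fun x hx => h2 (h x) ⟨i, hi, j, hj, (pth_free src tgt lab i j _).2 ⟨x, hx, rfl⟩⟩)

/-- the values `M ρ(z) w`, `z ∈ 𝓛` -/
def vals {K : Type} [Field K] {S : Type} {n r : ℕ} (M : Matrix (Fin n) (Fin r) K)
    (ρ : S → Matrix (Fin r) (Fin r) K) (w : Fin r → K) (𝓛 : Set S) : Set (Fin n → K) :=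
  (fun z => M.mulVec ((ρ z).mulVec w)) '' 𝓛

/-- `a` lies on a nonconstant image of `𝔾_m` in the closed set given by `FF` -/
def OnCurve {k L : Type} [Field k] [Field L] [Algebra k L] {n : ℕ}
    (FF : Set (MvPolynomial (Fin n) k)) (a : Fin n → L) : Prop :=
  ∃ b, b ≠ a ∧ Link FF a b

theorem Link.symm {k L : Type} [Field k] [Field L] [Algebra k L] {n : ℕ}
    {FF : Set (MvPolynomial (Fin n) k)} {a b : Fin n → L} (h : Link FF a b) : Link FF b a := by
  obtain ⟨p, N, hp, u, v, hu, hv, hpu, hpv⟩ := h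
  exact ⟨p, N, hp, v, u, hv, hu, hpv, hpu⟩

theorem conn_hyp {k L : Type} [Field k] [Field L] [Algebra k L] {n : ℕ}
    {FF : Set (MvPolynomial (Fin n) k)} {a b : Fin n → L} (h : Conn FF a b)
    (hab : ¬ OnCurve FF a ∨ ¬ OnCurve FF b) : a = b := by
  induction h with
  | rel a b h =>
    by_contra hne
    rcases hab with h1 | h1
    · exact h1 ⟨b, fun h => hne h.symm, h⟩
    · exact h1 ⟨a, hne, h.symm⟩
  | refl a => rfl
  | symm a b _ ih => exact (ih hab.symm).symm
  | trans a b c _ _ ih1 ih2 =>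
    rcases hab with h1 | h1
    · have h2 := ih1 (Or.inl h1)
      subst h2
      exact ih2 (Or.inl h1)
    · have h2 := ih2 (Or.inr h1)
      subst h2
      exact ih1 (Or.inr h1)

theorem up_inj (K : Type) [Field K] {n : ℕ} {a b : Fin n → K} (h : up K a = up K b) : a = b :=
  funext fun i => (algebraMap K (AlgebraicClosure K)).injective (congrFun h i)

/-- the vector `M ρ(a₁) ⋯ ρ(a_m) w` for the word `l = a₁ ⋯ a_m` -/
def wvec {K : Type} [Field K] {A : Type} {n r : ℕ} (M : Matrix (Fin n) (Fin r) K)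
    (ρ : A → Matrix (Fin r) (Fin r) K) (w : Fin r → K) (l : List A) : Fin n → K :=
  M.mulVec ((l.map ρ).prod.mulVec w)

/-- the words of `𝓛` whose value lies in the chain class of `Q` -/
def classOf {k K : Type} [Field k] [Field K] [Algebra k K] {A : Type} {n r : ℕ}
    (FF : Set (MvPolynomial (Fin n) k)) (M : Matrix (Fin n) (Fin r) K)
    (ρ : A → Matrix (Fin r) (Fin r) K) (w : Fin r → K) (𝓛 : Language A)
    (Q : Fin n → AlgebraicClosure K) : Language A :=
  {l | l ∈ 𝓛 ∧ Conn FF (up K (wvec M ρ w l)) Q}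

theorem classes (n d s : ℕ) {A : Type} [Finite A] {𝓛 : Language A} (h𝓛 : 𝓛.IsRegular) :
    ∃ N : ℕ, ∀ (k : Type) [Field k] [CharZero k] (FF : Set (MvPolynomial (Fin n) k)),
      (∀ F ∈ FF, F.totalDegree ≤ d) →
      ∀ (K : Type) [Field K] [Algebra k K] (M : Matrix (Fin n) (Fin s) K)
        (ρ : A → Matrix (Fin s) (Fin s) K) (w : Fin s → K),
        (∀ l ∈ 𝓛, OnW FF (wvec M ρ w l)) →
        ∀ Q, (classOf FF M ρ w 𝓛 Q).IsRegular ∧
          (Set.range (classOf FF M ρ w 𝓛 Q).leftQuotient).encard ≤ (N : ℕ∞) := by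
  classical
  obtain ⟨σ, hσ, D, rfl⟩ := h𝓛
  let E : σ → σ → Set (FreeMonoid A) := fun i j =>
    {x : FreeMonoid A | ∃ a, x = FreeMonoid.of a ∧ D.step i a = j}
  have hE : ∀ i j, (E i j).Finite := by
    intro i j
    refine (Set.finite_range (FreeMonoid.of (α := A))).subset ?_
    rintro _ ⟨a, rfl, -⟩
    exact ⟨a, rfl⟩
  obtain ⟨R, hR1, hR2, hR3⟩ := uniform_bar E hE n d s
  have hfin : (⋃ i, R D.start i).Finite := Set.finite_iUnion fun i => hR2 _ i
  refine ⟨(⋃ i, R D.start i).ncard, ?_⟩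
  intro k _ _ FF hdeg K _ _ M ρ v hX Q
  let ρ' : FreeMonoid A →* Matrix (Fin s) (Fin s) K := FreeMonoid.lift ρ
  have hval : ∀ u x : List A, wvec M ρ v (u ++ x) =
      val M (ρ' (FreeMonoid.ofList u)) ((x.map ρ).prod.mulVec v) := by
    intro u x
    unfold wvec val
    rw [List.map_append, List.prod_append, ← Matrix.mulVec_mulVec, lift_prod]
  have hLQ : ∀ u : List A, ∃ r ∈ ⋃ i, R D.start i,
      (classOf FF M ρ v D.accepts Q).leftQuotient u =
        (classOf FF M ρ v D.accepts Q).leftQuotient (FreeMonoid.toList r) := by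
    intro u
    have hu : Pth E D.start (D.eval u) (FreeMonoid.ofList u) :=
      (pth_dfa D _ _ (FreeMonoid.ofList u)).2 rfl
    obtain ⟨r, hr, h1⟩ := hR3 k FF hdeg K ρ' D.start (D.eval u) _ hu
    have hr' : D.eval (FreeMonoid.toList r) = D.eval u :=
      (pth_dfa D _ _ r).1 (hR1 _ _ hr)
    refine ⟨r, Set.mem_iUnion.2 ⟨_, hr⟩, ?_⟩
    have hacc : ∀ (z : FreeMonoid A), Pth E D.start (D.eval u) z → ∀ x : List A,
        D.evalFrom (D.eval u) x ∈ D.accept → FreeMonoid.toList z ++ x ∈ D.accepts := by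
      intro z hz x hx
      have h2 : D.eval (FreeMonoid.toList z) = D.eval u := (pth_dfa D _ _ z).1 hz
      rw [DFA.mem_accepts]
      show D.evalFrom D.start (FreeMonoid.toList z ++ x) ∈ D.accept
      rw [DFA.evalFrom_of_append]
      have h3 : D.evalFrom D.start (FreeMonoid.toList z) = D.eval u := h2
      rw [h3]
      exact hx
    have hrel : ∀ x : List A, D.evalFrom (D.eval u) x ∈ D.accept →
        Conn FF (up K (wvec M ρ v (u ++ x))) (up K (wvec M ρ v (FreeMonoid.toList r ++ x))) := by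
      intro x hx
      have h2 := h1 M ((x.map ρ).prod.mulVec v) (fun z hz => by
        have h3 := hval (FreeMonoid.toList z) x
        rw [FreeMonoid.ofList_toList] at h3
        rw [← h3]
        exact hX _ (hacc z hz x hx))
      have h3 := hval (FreeMonoid.toList r) x
      rw [FreeMonoid.ofList_toList] at h3
      rw [← h3, ← hval] at h2
      exact h2
    have hacc2 : ∀ x : List A, u ++ x ∈ D.accepts ↔ D.evalFrom (D.eval u) x ∈ D.accept := by
      intro x
      rw [DFA.mem_accepts]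
      show D.evalFrom D.start (u ++ x) ∈ D.accept ↔ _
      rw [DFA.evalFrom_of_append]
      rfl
    have hacc3 : ∀ x : List A, FreeMonoid.toList r ++ x ∈ D.accepts ↔
        D.evalFrom (D.eval u) x ∈ D.accept := by
      intro x
      rw [DFA.mem_accepts]
      show D.evalFrom D.start (FreeMonoid.toList r ++ x) ∈ D.accept ↔ _
      rw [DFA.evalFrom_of_append]
      have h3 : D.evalFrom D.start (FreeMonoid.toList r) = D.eval u := hr'
      rw [h3]
    ext x
    rw [Language.mem_leftQuotient, Language.mem_leftQuotient]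
    constructor
    · rintro ⟨h2, h3⟩
      have h5 := (hacc2 x).1 h2
      exact ⟨(hacc3 x).2 h5, Relation.EqvGen.trans _ _ _ (Relation.EqvGen.symm _ _ (hrel x h5)) h3⟩
    · rintro ⟨h2, h3⟩
      have h5 := (hacc3 x).1 h2
      exact ⟨(hacc2 x).2 h5, Relation.EqvGen.trans _ _ _ (hrel x h5) h3⟩
  have hsub : Set.range (classOf FF M ρ v D.accepts Q).leftQuotient ⊆
      (fun r => (classOf FF M ρ v D.accepts Q).leftQuotient (FreeMonoid.toList r)) ''
        (⋃ i, R D.start i) := by
    rintro _ ⟨u, rfl⟩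
    obtain ⟨r, hr, h⟩ := hLQ u
    exact ⟨r, hr, h.symm⟩
  refine ⟨Language.IsRegular.of_finite_range_leftQuotient ((hfin.image _).subset hsub), ?_⟩
  refine (Set.encard_le_encard hsub).trans ((Set.encard_image_le _ _).trans ?_)
  rw [← hfin.cast_ncard_eq]

/-- finiteness along the powers of one matrix -/
theorem powers_finite {k : Type} [Field k] [CharZero k] {n r : ℕ}
    {FF : Set (MvPolynomial (Fin n) k)} (h : GmFree FF) {K : Type} [Field K] [Algebra k K]
    (M : Matrix (Fin n) (Fin r) K) (g : Matrix (Fin r) (Fin r) K) (w : Fin r → K)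
    (hX : ∀ m : ℕ, OnW FF (M.mulVec ((g ^ m).mulVec w))) :
    (Set.range fun m : ℕ => M.mulVec ((g ^ m).mulVec w)).Finite := by
  have hK0 : CharZero K := charZero_of_injective_algebraMap (FaithfulSMul.algebraMap_injective k K)
  let ρ : Multiplicative ℕ →* Matrix (Fin r) (Fin r) K := powersHom _ g
  have hρ : ∀ m : ℕ, ρ (Multiplicative.ofAdd m) = g ^ m := fun m => powersHom_apply g _
  have hrat : IsRational (Set.univ : Set (Multiplicative ℕ)) := by
    refine ⟨Unit, inferInstance, fun _ _ => {Multiplicative.ofAdd 1}, Set.univ, Set.univ,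
      fun _ _ => Set.finite_singleton _, ?_⟩
    symm
    rw [Set.eq_univ_iff_forall]
    intro z
    refine ⟨(), trivial, (), trivial, ?_⟩
    have key : ∀ m : ℕ, Pth (fun _ _ : Unit => {Multiplicative.ofAdd 1}) () ()
        (Multiplicative.ofAdd m) := by
      intro m
      induction m with
      | zero => exact .nil
      | succ m ih => exact ih.cons rfl
    exact key (Multiplicative.toAdd z)
  obtain ⟨R, hR1, hR2, hR3⟩ := main_conn FF ρ hrat M w (by
    intro z _ F hF
    have := hX (Multiplicative.toAdd z) F hF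
    rw [← hρ] at this
    exact this)
  refine (hR2.image fun z => M.mulVec ((ρ z).mulVec w)).subset ?_
  rintro _ ⟨m, rfl⟩
  obtain ⟨z, hz, h1⟩ := hR3 (Multiplicative.ofAdd m) trivial
  have h2 := h.conn h1
  refine ⟨z, hz, ?_⟩
  have h3 := up_inj K h2
  rw [hρ] at h3
  exact h3.symm

/-- the coordinates are integral over `ℤ[1/D]` -/
def SInt {K : Type} [Field K] (D : ℕ) {n : ℕ} (a : Fin n → K) : Prop :=
  ∀ i, ∃ e : ℕ, IsIntegral ℤ ((D : K) ^ e * a i)

/-- a nonconstant curve gives an `S`-integral linear recurrence sequence with infinitely many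
values -/
theorem conv {k : Type} [Field k] [NumberField k] {n : ℕ}
    (FF : Set (MvPolynomial (Fin n) k)) (h : ¬ GmFree FF) :
    ∃ (r : ℕ) (K : Type) (_ : Field K) (_ : NumberField K) (_ : Algebra k K)
        (M : Matrix (Fin n) (Fin r) K) (g : Matrix (Fin r) (Fin r) K) (w : Fin r → K) (D : ℕ),
        D ≠ 0 ∧ (∀ m : ℕ, OnW FF (M.mulVec ((g ^ m).mulVec w)) ∧
          SInt D (M.mulVec ((g ^ m).mulVec w))) ∧
        (Set.range fun m : ℕ => M.mulVec ((g ^ m).mulVec w)).Infinite := by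
  classical
  unfold GmFree at h
  push Not at h
  obtain ⟨p, N, hp, u, v, hu, hv, huv⟩ := h
  obtain ⟨K, iK, iA, iF, q, hq, u', v', hu', hv', huv'⟩ := specialise FF p N hp u v hu hv huv
  have hNK : NumberField K := NumberField.of_module_finite k K
  let D0 : ℕ := Finset.univ.sup (fun i => (q i).natDegree) + 1
  have hD0 : ∀ i, (q i).natDegree < D0 := fun i =>
    Nat.lt_succ_of_le (Finset.le_sup (f := fun i => (q i).natDegree) (Finset.mem_univ i))
  let M : Matrix (Fin n) (Fin D0) K := Matrix.of fun i j => (q i).coeff j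
  let g : Matrix (Fin D0) (Fin D0) K := Matrix.diagonal fun j => (2 : K) ^ (j : ℕ) / 2 ^ N
  have hval : ∀ m : ℕ, M.mulVec ((g ^ m).mulVec 1) = crvPt q N ((2 : K) ^ m) := by
    intro m
    funext i
    rw [Matrix.diagonal_pow]
    unfold crvPt
    rw [Polynomial.eval_eq_sum_range' (hD0 i), Finset.sum_div, ← Fin.sum_univ_eq_sum_range
      (fun j => (q i).coeff j * ((2 : K) ^ m) ^ j / ((2 : K) ^ m) ^ N)]
    show ∑ j, M i j * ((Matrix.diagonal ((fun j : Fin D0 => (2 : K) ^ (j : ℕ) / 2 ^ N) ^ m)).mulVec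
      1) j = _
    refine Finset.sum_congr rfl fun j _ => ?_
    rw [Matrix.mulVec_diagonal, Pi.one_apply, mul_one, Pi.pow_apply, div_pow, ← pow_mul, ← pow_mul,
      ← pow_mul, ← pow_mul, mul_comm m, mul_comm m, mul_div_assoc]
    rfl
  -- a common denominator
  let T : Finset K := Finset.univ.image (fun c : Fin n × Fin D0 => (q c.1).coeff c.2)
  have hTalg : ∀ x ∈ T, IsAlgebraic ℤ x := by
    intro x _
    have h1 : IsAlgebraic ℚ x := Algebra.IsAlgebraic.isAlgebraic x
    exact (IsFractionRing.isAlgebraic_iff ℤ ℚ K).2 h1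
  obtain ⟨c, hc0, hc⟩ : ∃ c : ℤ, c ≠ 0 ∧ ∀ x ∈ T, IsIntegral ℤ (c • x) := by
    have h1 : ∀ x : K, ∃ c : ℤ, c ≠ 0 ∧ (x ∈ T → IsIntegral ℤ (c • x)) := by
      intro x
      by_cases hx : x ∈ T
      · obtain ⟨c, hc0, hc⟩ := (hTalg x hx).exists_integral_multiple
        exact ⟨c, hc0, fun _ => hc⟩
      · exact ⟨1, one_ne_zero, fun h => absurd h hx⟩
    choose c hc0 hc using h1
    refine ⟨∏ x ∈ T, c x, Finset.prod_ne_zero_iff.2 fun x _ => hc0 x, ?_⟩
    intro x hx
    rw [← Finset.prod_erase_mul T c hx, mul_smul]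
    have h2 : IsIntegral ℤ (algebraMap ℤ K (∏ x ∈ T.erase x, c x)) := isIntegral_algebraMap
    have h3 := h2.mul (hc x hx)
    rwa [← Algebra.smul_def] at h3
  refine ⟨D0, K, iK, hNK, iA, M, g, 1, 2 * c.natAbs, ?_, ?_, ?_⟩
  · exact mul_ne_zero two_ne_zero (Int.natAbs_ne_zero.2 hc0)
  · intro m
    rw [hval]
    refine ⟨fun F hF => hq _ (pow_ne_zero _ two_ne_zero) F hF, ?_⟩
    intro i
    refine ⟨m * N + 1, ?_⟩
    have h2 : IsIntegral ℤ ((c.natAbs : K) * (q i).eval ((2 : K) ^ m)) := by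
      rw [Polynomial.eval_eq_sum_range' (hD0 i), Finset.mul_sum]
      refine IsIntegral.sum _ fun j hj => ?_
      have hj' : j < D0 := Finset.mem_range.1 hj
      have h3 : IsIntegral ℤ ((c.natAbs : K) * (q i).coeff j) := by
        have h4 := hc _ (Finset.mem_image.2 ⟨(i, (⟨j, hj'⟩ : Fin D0)), Finset.mem_univ _, rfl⟩)
        rw [zsmul_eq_mul] at h4
        have h4' : IsIntegral ℤ ((c : K) * (q i).coeff j) := h4
        rcases Int.natAbs_eq c with hcc | hcc
        · have h5 : (c : K) = ((c.natAbs : ℕ) : K) := by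
            have := congrArg (Int.cast : ℤ → K) hcc
            rwa [Int.cast_natCast] at this
          rw [← h5]
          exact h4'
        · have h5 : (c : K) = -((c.natAbs : ℕ) : K) := by
            have := congrArg (Int.cast : ℤ → K) hcc
            rwa [Int.cast_neg, Int.cast_natCast] at this
          have h6 := h4'.neg
          rwa [h5, neg_mul, neg_neg] at h6
      have h6 : IsIntegral ℤ (((2 : K) ^ m) ^ j) := by
        have : IsIntegral ℤ (2 : K) := by
          have := isIntegral_algebraMap (R := ℤ) (A := K) (x := 2)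
          simpa using this
        exact (this.pow m).pow j
      rw [← mul_assoc]
      exact h3.mul h6
    have h7 : ((2 * c.natAbs : ℕ) : K) ^ (m * N + 1) * crvPt q N ((2 : K) ^ m) i =
        (2 * (c.natAbs : K) ^ (m * N)) * ((c.natAbs : K) * (q i).eval ((2 : K) ^ m)) := by
      unfold crvPt
      have h8 : ((2 : K) ^ m) ^ N ≠ 0 := pow_ne_zero _ (pow_ne_zero _ two_ne_zero)
      rw [← mul_div_assoc, div_eq_iff h8]
      push_cast
      rw [mul_pow, pow_succ, pow_succ, ← pow_mul]
      ring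
    rw [h7]
    have h9 : IsIntegral ℤ (2 * (c.natAbs : K) ^ (m * N)) := by
      have := isIntegral_algebraMap (R := ℤ) (A := K) (x := 2 * (c.natAbs : ℤ) ^ (m * N))
      simpa using this
    exact h9.mul h2
  · intro hfin
    apply huv'
    -- infinitely many powers of two give one value
    have hfin' : (Set.range fun m : ℕ => crvPt q N ((2 : K) ^ m)).Finite := by
      have : (fun m : ℕ => crvPt q N ((2 : K) ^ m)) = fun m : ℕ => M.mulVec ((g ^ m).mulVec 1) :=
        funext fun m => (hval m).symm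
      rw [this]
      exact hfin
    have hex : ∃ a ∈ Set.range (fun m : ℕ => crvPt q N ((2 : K) ^ m)),
        {m : ℕ | crvPt q N ((2 : K) ^ m) = a}.Infinite := by
      by_contra hcon
      push Not at hcon
      have h1 : (Set.univ : Set ℕ) ⊆ ⋃ a ∈ Set.range (fun m : ℕ => crvPt q N ((2 : K) ^ m)),
          {m : ℕ | crvPt q N ((2 : K) ^ m) = a} := by
        intro m _
        exact Set.mem_biUnion (Set.mem_range_self m) rfl
      exact Set.infinite_univ ((hfin'.biUnion fun a ha => hcon a ha).subset h1)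
    obtain ⟨a, -, ha⟩ := hex
    have hpoly : ∀ i, q i = C (a i) * X ^ N := by
      intro i
      rw [← sub_eq_zero]
      refine Polynomial.eq_zero_of_infinite_isRoot _ ?_
      have hinj : Function.Injective (fun m : ℕ => (2 : K) ^ m) := by
        intro m m' h
        have h' : ((2 ^ m : ℕ) : K) = ((2 ^ m' : ℕ) : K) := by
          push_cast
          exact h
        exact Nat.pow_right_injective le_rfl (Nat.cast_injective h')
      refine (ha.image hinj.injOn).mono ?_
      rintro _ ⟨m, hm, rfl⟩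
      have h1 : crvPt q N ((2 : K) ^ m) i = a i := congrFun hm i
      unfold crvPt at h1
      rw [div_eq_iff (pow_ne_zero _ (pow_ne_zero _ two_ne_zero))] at h1
      show (q i - C (a i) * X ^ N).eval ((2 : K) ^ m) = 0
      rw [eval_sub, eval_mul, eval_C, eval_pow, eval_X, h1, sub_self]
    have hconst : ∀ t : K, t ≠ 0 → crvPt q N t = a := by
      intro t ht
      funext i
      unfold crvPt
      rw [hpoly i, eval_mul, eval_C, eval_pow, eval_X, mul_div_assoc,
        div_self (pow_ne_zero _ ht), mul_one]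
    rw [hconst u' hu', hconst v' hv']

end Pool.Agent.T6.H35.AF
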