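import Pool.Agent.T6.H35.AF.Rep

set_option autoImplicit false

/-!
# Orbits of linear maps on an affine variety: chains of curves `𝔾_m → W`
-/

namespace Pool.Agent.T6.H35.AF

open Pool.Agent.T6.H35.RS (Neat)
open Pool.Agent.TH717.GO Pool.Agent.TH138.LG
open Polynomial

/-- the point at the parameter `t` of the curve `(p₁ / t ^ N, …, p_n / t ^ N)` -/
def crvPt {L : Type} [Field L] {n : ℕ} (p : Fin n → Polynomial L) (N : ℕ) (t : L) : Fin n → L :=
  fun i => (p i).eval t / t ^ N

/-- `a` and `b` lie on the image of a morphism from the multiplicative group to the closed set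
given by `FF` -/
def Link {k L : Type} [Field k] [Field L] [Algebra k L] {n : ℕ}
    (FF : Set (MvPolynomial (Fin n) k)) (a b : Fin n → L) : Prop :=
  ∃ (p : Fin n → Polynomial L) (N : ℕ),
    (∀ t : L, t ≠ 0 → ∀ F ∈ FF, MvPolynomial.aeval (crvPt p N t) F = 0) ∧
    ∃ u v : L, u ≠ 0 ∧ v ≠ 0 ∧ crvPt p N u = a ∧ crvPt p N v = b

/-- `a` and `b` are connected by a chain of images of the multiplicative group -/
def Conn {k L : Type} [Field k] [Field L] [Algebra k L] {n : ℕ}
    (FF : Set (MvPolynomial (Fin n) k)) : (Fin n → L) → (Fin n → L) → Prop :=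
  Relation.EqvGen (Link FF)

section

variable {L : Type} [Field L] (Λ : Subgroup Lˣ)

/-- specialisation of exponential polynomials -/
noncomputable def sp (χ : Λ →* L) (τ : L) : EP Λ →+* L :=
  MonoidAlgebra.liftNCRingHom (evalRingHom τ) χ (fun _ _ => Commute.all _ _)

theorem sp_mk (χ : Λ →* L) (τ : L) (S : Finset Λ) (a : Λ → Polynomial L) :
    sp Λ χ τ (mk Λ S a) = ∑ μ ∈ S, (a μ).eval τ * χ μ := by
  unfold mk
  rw [map_sum]
  refine Finset.sum_congr rfl fun μ _ => ?_
  unfold sp
  rw [MonoidAlgebra.liftNCRingHom_single]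
  rfl

/-- vanishing along the sequence implies vanishing at all specialisations -/
theorem aeval_sp {k : Type} [Field k] [CharZero L] [Algebra k L] {n : ℕ} (S : Finset Λ)
    (a : Fin n → Λ → Polynomial L) (F : MvPolynomial (Fin n) k)
    (h : ∀ m : ℕ, MvPolynomial.aeval
      (fun i => ∑ μ ∈ S, (a i μ).eval (m : L) * ((μ : Lˣ) : L) ^ m) F = 0) (χ : Λ →* L) (τ : L) :
    MvPolynomial.aeval (fun i => ∑ μ ∈ S, (a i μ).eval τ * χ μ) F = 0 := by
  let f : k →+* EP Λ := (MonoidAlgebra.singleOneRingHom (R := Polynomial L) (M := Λ)).comp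
    (algebraMap k (Polynomial L))
  have h0 : MvPolynomial.eval₂ f (fun i => mk Λ S (a i)) F = 0 := by
    apply ev_injective Λ
    rw [map_zero]
    funext m
    have h1 := h m
    rw [MvPolynomial.aeval_def] at h1
    let evm : EP Λ →+* L := (Pi.evalRingHom (fun _ : ℕ => L) m).comp (ev Λ)
    have h2 : evm (MvPolynomial.eval₂ f (fun i => mk Λ S (a i)) F) = 0 := by
      rw [MvPolynomial.hom_eval₂]
      have h3 : evm.comp f = algebraMap k L := by
        refine RingHom.ext fun x => ?_
        show ev Λ (MonoidAlgebra.single 1 (algebraMap k (Polynomial L) x)) m = _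
        rw [ev_single, Polynomial.algebraMap_apply, eval_C]
        simp
      rw [h3]
      have h4 : (fun i => evm (mk Λ S (a i))) = fun i => ∑ μ ∈ S, (a i μ).eval (m : L) *
          ((μ : Lˣ) : L) ^ m := by
        funext i
        exact ev_mk Λ S (a i) m
      rw [h4]
      exact h1
    exact h2
  have h7 := congrArg (sp Λ χ τ) h0
  rw [MvPolynomial.hom_eval₂, map_zero] at h7
  have h5 : (sp Λ χ τ).comp f = algebraMap k L := by
    refine RingHom.ext fun x => ?_
    show sp Λ χ τ (MonoidAlgebra.single 1 (algebraMap k (Polynomial L) x)) = _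
    unfold sp
    rw [MonoidAlgebra.liftNCRingHom_single, map_one, mul_one, Polynomial.algebraMap_apply]
    exact eval_C
  have h6 : (fun i => sp Λ χ τ (mk Λ S (a i))) =
      fun i => ∑ μ ∈ S, (a i μ).eval τ * χ μ := by
    funext i
    exact sp_mk Λ χ τ S (a i)
  rw [h5, h6] at h7
  rwa [MvPolynomial.aeval_def]

end

/-- exponential polynomials on a variety: the values at `0` and at `1` are connected -/
theorem conn_exp {k : Type} [Field k] {n : ℕ} (FF : Set (MvPolynomial (Fin n) k))
    {L : Type} [Field L] [CharZero L] [Algebra k L] (Λ : Subgroup Lˣ) (hfg : Group.FG Λ)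
    (htf : ∀ (g : Λ) (n : ℕ), 0 < n → g ^ n = 1 → g = 1) (S : Finset Λ)
    (a : Fin n → Λ → Polynomial L)
    (hF : ∀ F ∈ FF, ∀ m : ℕ, MvPolynomial.aeval
      (fun i => ∑ μ ∈ S, (a i μ).eval (m : L) * ((μ : Lˣ) : L) ^ m) F = 0) :
    Conn FF (fun i => ∑ μ ∈ S, (a i μ).eval 0)
      (fun i => ∑ μ ∈ S, (a i μ).eval 1 * ((μ : Lˣ) : L)) := by
  classical
  have h1 : IsAddTorsionFree (Additive Λ) := by
    constructor
    intro n hn a b hab
    have h2 : (Additive.toMul a / Additive.toMul b) ^ n = 1 := by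
      rw [div_pow, div_eq_one]
      exact hab
    have h3 := htf _ n (Nat.pos_of_ne_zero hn) h2
    exact Additive.toMul.injective (div_eq_one.1 h3)
  have h4 : Module.Finite ℤ (Additive Λ) := by
    rw [Module.Finite.iff_addGroup_fg]
    exact GroupFG.iff_add_fg.1 hfg
  have h5 : Module.Free ℤ (Additive Λ) := Module.free_of_finite_type_torsion_free'
  let b := Module.Free.chooseBasis ℤ (Additive Λ)
  let I := Module.Free.ChooseBasisIndex ℤ (Additive Λ)
  -- the character with given values on the basis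
  let χ : (I → Lˣ) → (Λ →* L) := fun c =>
    { toFun := fun μ => ((∏ i, c i ^ (b.repr (Additive.ofMul μ) i) : Lˣ) : L)
      map_one' := by
        have : b.repr (Additive.ofMul (1 : Λ)) = 0 := map_zero b.repr
        simp
      map_mul' := fun x y => by
        have h : b.repr (Additive.ofMul (x * y)) =
            b.repr (Additive.ofMul x) + b.repr (Additive.ofMul y) := map_add b.repr _ _
        rw [← Units.val_mul, ← Finset.prod_mul_distrib]
        congr 1
        refine Finset.prod_congr rfl fun i _ => ?_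
        rw [h, Finsupp.add_apply, zpow_add] }
  have hχ : ∀ c μ, χ c μ = ((∏ i, c i ^ (b.repr (Additive.ofMul μ) i) : Lˣ) : L) := fun _ _ => rfl
  -- the identity
  let c0 : I → Lˣ := fun i => ((Additive.toMul (b i) : Λ) : Lˣ)
  have hc0 : ∀ μ : Λ, χ c0 μ = ((μ : Lˣ) : L) := by
    intro μ
    rw [hχ]
    congr 1
    have h6 := b.sum_repr (Additive.ofMul μ)
    have h7 : (∏ i, (Additive.toMul (b i) : Λ) ^ (b.repr (Additive.ofMul μ) i)) = μ := by
      have h8 := congrArg Additive.toMul h6
      rw [toMul_sum] at h8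
      simpa only [toMul_zsmul, toMul_ofMul] using h8
    calc ∏ i, c0 i ^ (b.repr (Additive.ofMul μ) i)
        = ((∏ i, (Additive.toMul (b i) : Λ) ^ (b.repr (Additive.ofMul μ) i) : Λ) : Lˣ) := by
          rw [Subgroup.val_finsetProd]
          rfl
      _ = (μ : Lˣ) := by rw [h7]
  have h1c : ∀ μ : Λ, χ 1 μ = 1 := by
    intro μ
    rw [hχ]
    simp
  let P : (I → Lˣ) → L → (Fin n → L) := fun c τ i => ∑ μ ∈ S, (a i μ).eval τ * χ c μ
  have hP : ∀ c τ, ∀ F ∈ FF, MvPolynomial.aeval (P c τ) F = 0 := fun c τ F hFF =>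
    aeval_sp Λ S a F (hF F hFF) (χ c) τ
  -- changing one coordinate
  have hstep : ∀ (c : I → Lˣ) (τ : L) (j : I) (w : Lˣ),
      Link FF (P c τ) (P (Function.update c j w) τ) := by
    intro c τ j w
    let e : Λ → ℤ := fun μ => b.repr (Additive.ofMul μ) j
    let N : ℕ := ∑ μ ∈ S, (e μ).natAbs
    have hN : ∀ μ ∈ S, 0 ≤ e μ + (N : ℤ) := by
      intro μ hμ
      have h6 : (e μ).natAbs ≤ N := Finset.single_le_sum (f := fun μ => (e μ).natAbs)
        (fun _ _ => Nat.zero_le _) hμ
      omega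
    let p : Fin n → Polynomial L := fun i => ∑ μ ∈ S,
      C ((a i μ).eval τ * χ (Function.update c j 1) μ) * X ^ (e μ + (N : ℤ)).toNat
    have hp : ∀ t : Lˣ, crvPt p N (t : L) = P (Function.update c j t) τ := by
      intro t
      funext i
      show (p i).eval (t : L) / (t : L) ^ N = ∑ μ ∈ S, (a i μ).eval τ * χ (Function.update c j t) μ
      rw [eval_finsetSum, Finset.sum_div]
      refine Finset.sum_congr rfl fun μ hμ => ?_
      rw [eval_mul, eval_C, eval_pow, eval_X]
      have h6 : (t : L) ^ (e μ + (N : ℤ)).toNat / (t : L) ^ N = (t : L) ^ (e μ) := by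
        rw [← zpow_natCast, Int.toNat_of_nonneg (hN μ hμ), zpow_add₀ t.ne_zero, zpow_natCast,
          mul_div_assoc, div_self (pow_ne_zero _ t.ne_zero), mul_one]
      have h7 : χ (Function.update c j t) μ = χ (Function.update c j 1) μ * (t : L) ^ (e μ) := by
        rw [hχ, hχ, ← Finset.mul_prod_erase Finset.univ _ (Finset.mem_univ j),
          ← Finset.mul_prod_erase Finset.univ (fun i => (Function.update c j 1) i ^
            (b.repr (Additive.ofMul μ) i)) (Finset.mem_univ j)]
        simp only [Function.update_self, one_zpow, one_mul, Units.val_mul, Units.val_zpow_eq_zpow_val]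
        rw [mul_comm]
        congr 2
        refine Finset.prod_congr rfl fun i hi => ?_
        rw [Function.update_of_ne (Finset.ne_of_mem_erase hi),
          Function.update_of_ne (Finset.ne_of_mem_erase hi)]
      rw [mul_div_assoc, h6, h7, mul_assoc]
    refine ⟨p, N, ?_, (c j : L), (w : L), (c j).ne_zero, w.ne_zero, ?_, hp w⟩
    · intro t ht F hFF
      have := hp (Units.mk0 t ht)
      rw [Units.val_mk0] at this
      rw [this]
      exact hP _ _ F hFF
    · rw [hp (c j), Function.update_eq_self]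
  have hchain : ∀ (s : Finset I), Conn FF (P 1 0) (P (fun i => if i ∈ s then c0 i else 1) 0) := by
    intro s
    induction s using Finset.induction_on with
    | empty =>
      simp only [Finset.notMem_empty, if_false]
      exact Relation.EqvGen.refl _
    | insert j s hj ih =>
      refine Relation.EqvGen.trans _ _ _ ih (Relation.EqvGen.rel _ _ ?_)
      have h6 : (fun i => if i ∈ insert j s then c0 i else 1) =
          Function.update (fun i => if i ∈ s then c0 i else 1) j (c0 j) := by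
        funext i
        rcases eq_or_ne i j with rfl | hij
        · simp
        · rw [Function.update_of_ne hij]
          simp [hij]
      rw [h6]
      exact hstep _ _ _ _
  have h6 := hchain Finset.univ
  simp only [Finset.mem_univ, if_true] at h6
  -- the additive part
  have h7 : Link FF (P c0 0) (P c0 1) := by
    refine ⟨fun i => ∑ μ ∈ S, C (χ c0 μ) * (a i μ).comp (X - 1), 0, ?_, 1, 2, one_ne_zero,
      two_ne_zero, ?_, ?_⟩
    · intro t _ F hFF
      have h8 : crvPt (fun i => ∑ μ ∈ S, C (χ c0 μ) * (a i μ).comp (X - 1)) 0 t =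
          P c0 (t - 1) := by
        funext i
        simp only [crvPt, P, pow_zero, div_one, eval_finsetSum, eval_mul, eval_C, eval_comp,
          eval_sub, eval_X, eval_one]
        exact Finset.sum_congr rfl fun μ _ => mul_comm _ _
      rw [h8]
      exact hP _ _ F hFF
    · funext i
      simp only [crvPt, P, pow_zero, div_one, eval_finsetSum, eval_mul, eval_C, eval_comp,
        eval_sub, eval_X, eval_one, sub_self]
      exact Finset.sum_congr rfl fun μ _ => mul_comm _ _
    · funext i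
      simp only [crvPt, P, pow_zero, div_one, eval_finsetSum, eval_mul, eval_C, eval_comp,
        eval_sub, eval_X, eval_one]
      rw [show (2 : L) - 1 = 1 by norm_num]
      exact Finset.sum_congr rfl fun μ _ => mul_comm _ _
  have h8 := Relation.EqvGen.trans _ _ _ h6 (Relation.EqvGen.rel _ _ h7)
  have e1 : P 1 0 = fun i => ∑ μ ∈ S, (a i μ).eval 0 := by
    funext i
    refine Finset.sum_congr rfl fun μ _ => ?_
    rw [h1c, mul_one]
  have e2 : P c0 1 = fun i => ∑ μ ∈ S, (a i μ).eval 1 * ((μ : Lˣ) : L) := by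
    funext i
    refine Finset.sum_congr rfl fun μ _ => ?_
    rw [hc0]
  rw [← e1, ← e2]
  exact h8

/-- orbits of linear maps whose eigenvalues lie in a torsion-free group -/
theorem conn_orb {k : Type} [Field k] {n : ℕ} (FF : Set (MvPolynomial (Fin n) k)) (r : ℕ)
    (L : Type) [Field L] [CharZero L] [Algebra k L] [IsAlgClosed L] (f : Module.End L (Fin r → L))
    (U : Subgroup Lˣ) (hU : ∀ u ∈ U, ∀ m : ℕ, 0 < m → u ^ m = 1 → u = 1)
    (hfU : ∀ μ : L, f.HasEigenvalue μ → ∃ u ∈ U, (u : L) = μ)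
    (ℓ : (Fin r → L) →ₗ[L] (Fin n → L)) (v : Fin r → L)
    (hF : ∀ F ∈ FF, ∀ m : ℕ, MvPolynomial.aeval (ℓ ((f ^ m) v)) F = 0) :
    Conn FF (ℓ v) (ℓ (f v)) := by
  classical
  let E : Set Lˣ := {u | f.HasEigenvalue (u : L)}
  have hEfin : E.Finite := by
    have h1 : (Units.val '' E : Set L).Finite := by
      by_contra hinf
      obtain ⟨T, hT, hTc⟩ := Set.Infinite.exists_subset_card_eq hinf (r + 1)
      have h1 := card_le_of_eig f T (by
        intro μ hμ
        obtain ⟨u, hu, rfl⟩ := hT hμ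
        exact hu)
      omega
    exact Set.Finite.of_finite_image h1 (fun a _ b _ h => Units.ext h)
  let Λ : Subgroup Lˣ := Subgroup.closure E
  have hΛU : Λ ≤ U := by
    rw [Subgroup.closure_le]
    intro u hu
    obtain ⟨u', hu', h⟩ := hfU (u : L) hu
    rwa [← Units.ext h]
  have hΛ : ∀ μ : L, f.HasEigenvalue μ → ∃ ν : Λ, ((ν : Lˣ) : L) = μ := by
    intro μ hμ
    obtain ⟨u, hu, rfl⟩ := hfU μ hμ
    exact ⟨⟨u, Subgroup.subset_closure hμ⟩, rfl⟩
  have hfg : Group.FG Λ := by
    rw [Group.fg_iff_subgroup_fg]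
    exact ⟨hEfin.toFinset, by rw [Set.Finite.coe_toFinset]⟩
  obtain ⟨S, hS1, hS2⟩ := seq_rep f Λ hΛ
  have hrep : ∀ i : Fin n, ∃ a : Λ → Polynomial L, (∀ μ ∈ S, (a μ).degree < r) ∧
      ∀ m : ℕ, ℓ ((f ^ m) v) i = ∑ μ ∈ S, (a μ).eval (m : L) * ((μ : Lˣ) : L) ^ m := fun i =>
    hS2 ((LinearMap.proj i).comp ℓ) v
  choose a ha hae using hrep
  have h0 : ℓ v = fun i => ∑ μ ∈ S, (a i μ).eval 0 := by
    funext i
    have h1 := hae i 0
    rw [pow_zero, Module.End.one_apply] at h1
    rw [h1]
    refine Finset.sum_congr rfl fun μ _ => ?_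
    rw [pow_zero, mul_one, Nat.cast_zero]
  have h1' : ℓ (f v) = fun i => ∑ μ ∈ S, (a i μ).eval 1 * ((μ : Lˣ) : L) := by
    funext i
    have h1 := hae i 1
    rw [pow_one] at h1
    rw [h1]
    refine Finset.sum_congr rfl fun μ _ => ?_
    rw [pow_one, Nat.cast_one]
  have hxm : ∀ m : ℕ, ℓ ((f ^ m) v) = fun i => ∑ μ ∈ S, (a i μ).eval (m : L) *
      ((μ : Lˣ) : L) ^ m := fun m => funext fun i => hae i m
  rw [h0, h1']
  refine conn_exp FF Λ hfg ?_ S a ?_
  · intro g m hm h
    have h1 := hU g (hΛU g.2) m hm (by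
      have := congrArg (Subtype.val : Λ → Lˣ) h
      simpa using this)
    exact Subtype.ext h1
  · intro F hFF m
    rw [← hxm m]
    exact hF F hFF m

/-- the vectors over the algebraic closure -/
noncomputable def up (K : Type) [Field K] {n : ℕ} (a : Fin n → K) : Fin n → AlgebraicClosure K :=
  fun i => algebraMap K (AlgebraicClosure K) (a i)

theorem conn_sand {k : Type} [Field k] {n : ℕ} (FF : Set (MvPolynomial (Fin n) k))
    {K : Type} [Field K] [CharZero K] [Algebra k K] {r : ℕ}
    (A : Matrix (Fin n) (Fin r) K) (g : Matrix (Fin r) (Fin r) K) (y : Fin r → K)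
    (hg : Neat g)
    (hX : ∀ m : ℕ, ∀ F ∈ FF, MvPolynomial.aeval (A.mulVec ((g ^ m).mulVec y)) F = 0) :
    Conn FF (up K (A.mulVec y)) (up K (A.mulVec (g.mulVec y))) := by
  classical
  obtain ⟨⟨g', hgg'⟩, U, hU, hUe⟩ := hg
  let L := AlgebraicClosure K
  let φ : K →+* L := algebraMap K L
  have : CharZero L := charZero_of_injective_algebraMap (algebraMap K L).injective
  have heig : ∀ μ : L, Module.End.HasEigenvalue (Matrix.toLinAlgEquiv' (g.map φ)) μ →
      ∃ u ∈ U, (u : L) = μ := by
    intro μ hμ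
    obtain ⟨w, hw⟩ := hμ.exists_hasEigenvector
    refine hUe μ w hw.2 ?_
    have := hw.apply_eq_smul
    rwa [Matrix.toLinAlgEquiv'_apply] at this
  have hpow : ∀ m : ℕ, (g.map φ) ^ m = (g ^ m).map φ := by
    intro m
    have h1 : g.map φ = φ.mapMatrix g := rfl
    rw [h1, ← map_pow]
    rfl
  let ℓ : (Fin r → L) →ₗ[L] (Fin n → L) := (A.map φ).mulVecLin
  have hℓ : ∀ x : Fin r → K, ℓ (φ ∘ x) = fun i => φ (A.mulVec x i) := by
    intro x
    funext i
    exact (RingHom.map_mulVec φ A x i).symm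
  have hg2 : ∀ (C : Matrix (Fin r) (Fin r) K) (x : Fin r → K),
      (C.map φ).mulVec (φ ∘ x) = φ ∘ (C.mulVec x) := by
    intro C x
    funext i
    exact (RingHom.map_mulVec φ C x i).symm
  have hseq : ∀ m : ℕ, ℓ (((Matrix.toLinAlgEquiv' (g.map φ)) ^ m) (φ ∘ y)) =
      fun i => φ (A.mulVec ((g ^ m).mulVec y) i) := by
    intro m
    rw [← map_pow, Matrix.toLinAlgEquiv'_apply, hpow, hg2, hℓ]
  have hval : ∀ (x : Fin n → K) (F : MvPolynomial (Fin n) k),
      (MvPolynomial.aeval fun i => φ (x i)) F = φ (MvPolynomial.aeval x F) :=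
    fun x F => MvPolynomial.aeval_algebraMap_apply (A := K) L x F
  have hFs : ∀ F ∈ FF, ∀ m : ℕ, MvPolynomial.aeval
      (ℓ (((Matrix.toLinAlgEquiv' (g.map φ)) ^ m) (φ ∘ y))) F = 0 := by
    intro F hF m
    rw [hseq m, hval, hX m F hF, map_zero]
  have h := conn_orb FF r L (Matrix.toLinAlgEquiv' (g.map φ)) U hU heig ℓ (φ ∘ y) hFs
  have hseq1 : ℓ ((Matrix.toLinAlgEquiv' (g.map φ)) (φ ∘ y)) =
      fun i => φ (A.mulVec (g.mulVec y) i) := by
    have := hseq 1
    simpa using this
  rw [hseq1, hℓ] at h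
  exact h

/-- the zero set of `FF` and the chains of curves -/
theorem tst_conn {k : Type} [Field k] {n : ℕ} (FF : Set (MvPolynomial (Fin n) k))
    {K : Type} [Field K] [CharZero K] [Algebra k K] :
    Tst (K := K) (fun a : Fin n → K => ∀ F ∈ FF, MvPolynomial.aeval a F = 0)
      (fun a b => Conn FF (up K a) (up K b)) where
  refl := fun _ => Relation.EqvGen.refl _
  symm := fun _ _ h => Relation.EqvGen.symm _ _ h
  trans := fun _ _ _ h h' => Relation.EqvGen.trans _ _ _ h h'
  sand := fun _ A g y hg hX => conn_sand FF A g y hg hX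

/-- **Main theorem** (one representation): the values on a rational set lie in finitely many chain
classes. -/
theorem main_conn {k : Type} [Field k] {n : ℕ} (FF : Set (MvPolynomial (Fin n) k))
    {K : Type} [Field K] [CharZero K] [Algebra k K] {S : Type} [Monoid S] {s : ℕ}
    (ρ : S →* Matrix (Fin s) (Fin s) K) {𝓛 : Set S}
    (h : Pool.Agent.T6.H35.RS.IsRational 𝓛) (A : Matrix (Fin n) (Fin s) K) (y : Fin s → K)
    (hX : ∀ z ∈ 𝓛, ∀ F ∈ FF, MvPolynomial.aeval (A.mulVec ((ρ z).mulVec y)) F = 0) :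
    ∃ R ⊆ 𝓛, R.Finite ∧ ∀ z ∈ 𝓛, ∃ r ∈ R,
      Conn FF (up K (A.mulVec ((ρ z).mulVec y))) (up K (A.mulVec ((ρ r).mulVec y))) := by
  obtain ⟨R, h1, h2, h3⟩ := FinRep.rational ρ h
  refine ⟨R, h1, h2, fun z hz => ?_⟩
  obtain ⟨r, hr, h4⟩ := h3 z hz n _ _ (tst_conn FF) Unit (fun _ => A) (fun _ => y)
    (fun _ x hx => hX x hx)
  exact ⟨r, hr, h4 ()⟩

end Pool.Agent.T6.H35.AF
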