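import Pool.Agent.T6.H35.RS.Auto

set_option autoImplicit false

/-!
# Representatives up to an arbitrary equivalence relation

The same as `Pool.Agent.T6.H35.RS`, for an arbitrary equivalence relation on vectors which contains
the pairs `(A y, A g y)` for neat matrices `g` with `A g ^ m y` on the variety for all `m`.
-/

namespace Pool.Agent.T6.H35.AF

open Pool.Agent.T6.H35.RS (Neat Pth ED ED_sub SP gmat gmat_inj exists_factor IsRational)
open Pool.Agent.TH717.GO Pool.Agent.TH138.LG
open scoped Pointwise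

variable {K : Type} [Field K]

/-- the properties of a variety (`On`) and of an equivalence relation (`Rel`) which are used below -/
structure Tst {n : ℕ} (On : (Fin n → K) → Prop) (Rel : (Fin n → K) → (Fin n → K) → Prop) :
    Prop where
  refl : ∀ a, Rel a a
  symm : ∀ a b, Rel a b → Rel b a
  trans : ∀ a b c, Rel a b → Rel b c → Rel a c
  sand : ∀ (s : ℕ) (A : Matrix (Fin n) (Fin s) K) (g : Matrix (Fin s) (Fin s) K)
    (y : Fin s → K), Neat g → (∀ m : ℕ, On (A.mulVec ((g ^ m).mulVec y))) →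
    Rel (A.mulVec y) (A.mulVec (g.mulVec y))

/-- the vector `A x y` -/
def val {n s : ℕ} (A : Matrix (Fin n) (Fin s) K) (x : Matrix (Fin s) (Fin s) K)
    (y : Fin s → K) : Fin n → K := A.mulVec (x.mulVec y)

/-- `z` is represented by an element of `R`, for all families of contexts which are good for
all elements of `P` -/
def RepPt {N : Type} {s : ℕ} (φ : N → Matrix (Fin s) (Fin s) K) (P R : Set N) (z : N) : Prop :=
  ∀ (n : ℕ) (On : (Fin n → K) → Prop) (Rel : (Fin n → K) → (Fin n → K) → Prop), Tst On Rel →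
    ∀ (ι : Type) (A : ι → Matrix (Fin n) (Fin s) K) (y : ι → Fin s → K),
      (∀ t, ∀ x ∈ P, On (val (A t) (φ x) (y t))) →
      ∃ r ∈ R, ∀ t, Rel (val (A t) (φ z) (y t)) (val (A t) (φ r) (y t))

section

variable {N : Type} {s : ℕ}

theorem RepPt.mono {φ : N → Matrix (Fin s) (Fin s) K} {P P' R R' : Set N} {z : N}
    (h : RepPt φ P R z) (hP : P ⊆ P') (hR : R ⊆ R') : RepPt φ P' R' z := by
  intro n On Rel hT ι A y h1
  obtain ⟨r, hr, h4⟩ := h n On Rel hT ι A y (fun t x hx => h1 t x (hP hx))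
  exact ⟨r, hR hr, h4⟩

theorem RepPt.self {φ : N → Matrix (Fin s) (Fin s) K} {P R : Set N} {z : N} (hz : z ∈ R) :
    RepPt φ P R z := by
  intro n On Rel hT ι A y h1
  exact ⟨z, hz, fun t => hT.refl _⟩

theorem RepPt.trans {φ : N → Matrix (Fin s) (Fin s) K} {P Q R : Set N} {z : N}
    (h : RepPt φ P Q z) (hQP : Q ⊆ P) (hQ : ∀ x ∈ Q, RepPt φ Q R x) : RepPt φ P R z := by
  intro n On Rel hT ι A y h1
  obtain ⟨q, hq, h4⟩ := h n On Rel hT ι A y h1
  obtain ⟨r, hr, h5⟩ := hQ q hq n On Rel hT ι A y (fun t x hx => h1 t x (hQP hx))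
  exact ⟨r, hr, fun t => hT.trans _ _ _ (h4 t) (h5 t)⟩

theorem RepPt.mul [Monoid N] {φ : N →* Matrix (Fin s) (Fin s) K} {P₁ P₂ P R₁ R₂ R : Set N}
    {z₁ z₂ : N} (h₁ : RepPt φ P₁ R₁ z₁) (h₂ : RepPt φ P₂ R₂ z₂) (hz₂ : z₂ ∈ P₂) (hR₁ : R₁ ⊆ P₁)
    (hP : ∀ x ∈ P₁, ∀ y ∈ P₂, x * y ∈ P) (hR : ∀ x ∈ R₁, ∀ y ∈ R₂, x * y ∈ R) :
    RepPt φ P R (z₁ * z₂) := by
  intro n On Rel hT ι A y h1
  have e1 : ∀ t (a b : N), val (A t) (φ (a * b)) (y t) =
      val (A t) (φ a) ((φ b).mulVec (y t)) := by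
    intro t a b
    unfold val
    rw [map_mul, ← Matrix.mulVec_mulVec]
  have e2 : ∀ t (a b : N), val (A t) (φ (a * b)) (y t) =
      val (A t * φ a) (φ b) (y t) := by
    intro t a b
    unfold val
    rw [map_mul]
    simp only [Matrix.mulVec_mulVec, Matrix.mul_assoc]
  obtain ⟨r₁, hr₁, h4⟩ := h₁ n On Rel hT ι A (fun t => (φ z₂).mulVec (y t))
    (fun t x hx => by rw [← e1]; exact h1 t _ (hP x hx z₂ hz₂))
  obtain ⟨r₂, hr₂, h5⟩ := h₂ n On Rel hT ι (fun t => A t * φ r₁) y
    (fun t x hx => by rw [← e2]; exact h1 t _ (hP r₁ (hR₁ hr₁) x hx))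
  refine ⟨r₁ * r₂, hR r₁ hr₁ r₂ hr₂, fun t => ?_⟩
  have h6 := h4 t
  have h7 := h5 t
  rw [← e1, ← e1] at h6
  rw [← e2, ← e2] at h7
  exact hT.trans _ _ _ h6 h7

theorem RepPt.transfer {N' : Type} {s' : ℕ} {φ : N → Matrix (Fin s) (Fin s) K}
    {φ' : N' → Matrix (Fin s') (Fin s') K} (Ψ : N' → N) (β : Matrix (Fin s) (Fin s') K)
    (α : Matrix (Fin s') (Fin s) K) (hΨ : ∀ z, φ (Ψ z) = β * φ' z * α) {P R : Set N}
    {P' R' : Set N'} {z : N'} (h : RepPt φ' P' R' z) (hP : ∀ x ∈ P', Ψ x ∈ P)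
    (hR : ∀ x ∈ R', Ψ x ∈ R) : RepPt φ P R (Ψ z) := by
  intro n On Rel hT ι A y h1
  have e : ∀ t x, val (A t) (φ (Ψ x)) (y t) = val (A t * β) (φ' x) (α.mulVec (y t)) := by
    intro t x
    unfold val
    rw [hΨ]
    simp only [Matrix.mulVec_mulVec, Matrix.mul_assoc]
  obtain ⟨r, hr, h4⟩ := h n On Rel hT ι (fun t => A t * β) (fun t => α.mulVec (y t))
    (fun t x hx => by rw [← e]; exact h1 t _ (hP x hx))
  refine ⟨Ψ r, hR r hr, fun t => ?_⟩
  rw [e, e]
  exact h4 t

/-- the set `P` has a finite set of representatives -/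
def FinRep (φ : N → Matrix (Fin s) (Fin s) K) (P : Set N) : Prop :=
  ∃ R ⊆ P, R.Finite ∧ ∀ z ∈ P, RepPt φ P R z

theorem FinRep.of_finite {φ : N → Matrix (Fin s) (Fin s) K} {P : Set N} (hP : P.Finite) :
    FinRep φ P := ⟨P, subset_rfl, hP, fun _ hz => RepPt.self hz⟩

theorem FinRep.cover {φ : N → Matrix (Fin s) (Fin s) K} {P : Set N} {κ : Type} [Finite κ]
    (Q : κ → Set N) (hQ : ∀ c, FinRep φ (Q c)) (hsub : ∀ c, Q c ⊆ P)
    (hcov : ∀ z ∈ P, ∃ c, z ∈ Q c) : FinRep φ P := by
  choose R hR1 hR2 hR3 using hQ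
  refine ⟨⋃ c, R c, ?_, Set.finite_iUnion hR2, ?_⟩
  · intro x hx
    obtain ⟨c, hc⟩ := Set.mem_iUnion.1 hx
    exact hsub c (hR1 c hc)
  · intro z hz
    obtain ⟨c, hc⟩ := hcov z hz
    exact (hR3 c z hc).mono (hsub c) (Set.subset_iUnion R c)

theorem FinRep.union {φ : N → Matrix (Fin s) (Fin s) K} {P Q : Set N} (hP : FinRep φ P)
    (hQ : FinRep φ Q) : FinRep φ (P ∪ Q) := by
  refine FinRep.cover (κ := Bool) (fun b => bif b then P else Q) ?_ ?_ ?_
  · rintro (_ | _)
    · exact hQ
    · exact hP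
  · rintro (_ | _)
    · exact Set.subset_union_right
    · exact Set.subset_union_left
  · rintro z (hz | hz)
    · exact ⟨true, hz⟩
    · exact ⟨false, hz⟩

theorem FinRep.iUnion {φ : N → Matrix (Fin s) (Fin s) K} {κ : Type} [Finite κ]
    {Q : κ → Set N} (hQ : ∀ c, FinRep φ (Q c)) : FinRep φ (⋃ c, Q c) :=
  FinRep.cover Q hQ (Set.subset_iUnion Q) fun _ hz => Set.mem_iUnion.1 hz

theorem FinRep.mul [Monoid N] {φ : N →* Matrix (Fin s) (Fin s) K} {P Q : Set N}
    (hP : FinRep φ P) (hQ : FinRep φ Q) : FinRep φ (P * Q) := by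
  obtain ⟨R₁, h1, h2, h3⟩ := hP
  obtain ⟨R₂, h4, h5, h6⟩ := hQ
  refine ⟨R₁ * R₂, Set.mul_subset_mul h1 h4, h2.mul h5, ?_⟩
  rintro _ ⟨a, ha, b, hb, rfl⟩
  exact (h3 a ha).mul (h6 b hb) hb h1 (fun x hx y hy => Set.mul_mem_mul hx hy)
    (fun x hx y hy => Set.mul_mem_mul hx hy)

theorem FinRep.image {N' : Type} {s' : ℕ} {φ : N → Matrix (Fin s) (Fin s) K}
    {φ' : N' → Matrix (Fin s') (Fin s') K} (Ψ : N' → N) (β : Matrix (Fin s) (Fin s') K)
    (α : Matrix (Fin s') (Fin s) K) (hΨ : ∀ z, φ (Ψ z) = β * φ' z * α)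
    {P' : Set N'} (h : FinRep φ' P') : FinRep φ (Ψ '' P') := by
  obtain ⟨R, h1, h2, h3⟩ := h
  refine ⟨Ψ '' R, Set.image_mono h1, h2.image Ψ, ?_⟩
  rintro _ ⟨z, hz, rfl⟩
  exact RepPt.transfer Ψ β α hΨ (h3 z hz) (fun x hx => Set.mem_image_of_mem _ hx)
    (fun x hx => Set.mem_image_of_mem _ hx)

theorem FinRep.trans {φ : N → Matrix (Fin s) (Fin s) K} {P Q : Set N} (hQ : FinRep φ Q)
    (hQP : Q ⊆ P) (h : ∀ z ∈ P, RepPt φ P Q z) : FinRep φ P := by
  obtain ⟨R, h1, h2, h3⟩ := hQ
  exact ⟨R, h1.trans hQP, h2, fun z hz => (h z hz).trans hQP h3⟩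

end

section

variable {N : Type} [Monoid N] {s : ℕ}

/-- a set of neat elements, closed under products: all elements are represented by `1` -/
theorem FinRep.loop (φ : N →* Matrix (Fin s) (Fin s) K)
    (Γ : Set N) (h1 : (1 : N) ∈ Γ) (hmul : ∀ x ∈ Γ, ∀ y ∈ Γ, x * y ∈ Γ)
    (hC : ∀ x ∈ Γ, Neat (φ x)) : FinRep φ Γ := by
  refine ⟨{1}, Set.singleton_subset_iff.2 h1, Set.finite_singleton _, ?_⟩
  intro z hz n On Rel hT ι A y hOn
  have hpow : ∀ x ∈ Γ, ∀ m : ℕ, x ^ m ∈ Γ := by
    intro x hx m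
    induction m with
    | zero => rw [pow_zero]; exact h1
    | succ m ih => rw [pow_succ]; exact hmul _ ih _ hx
  refine ⟨1, Set.mem_singleton _, fun t => hT.symm _ _ ?_⟩
  have h2 : val (A t) (φ 1) (y t) = (A t).mulVec (y t) := by
    unfold val
    rw [map_one, Matrix.one_mulVec]
  rw [h2]
  exact hT.sand _ (A t) _ (y t) (hC z hz) (fun k => by
    have h4 := hOn t (z ^ k) (hpow z hz k)
    unfold val at h4
    rwa [map_pow] at h4)

/-- paths in a finite graph whose loops are neat have finitely many representatives -/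
theorem FinRep.paths_aux (φ : N →* Matrix (Fin s) (Fin s) K) {V : Type} (E : V → V → Set N)
    (hE : ∀ i j, (E i j).Finite) (hC : ∀ i z, Pth E i i z → Neat (φ z)) (D : Finset V) :
    ∀ q ∈ D, ∀ q', FinRep φ {z | Pth (ED E D) q q' z} := by
  classical
  induction D using Finset.strongInduction with
  | H D ih =>
    intro q hq q'
    have hloop : FinRep φ {z | Pth (ED E D) q q z} := by
      refine FinRep.loop φ _ Pth.nil (fun x hx y hy => Pth.trans hx hy) ?_
      intro x hx
      exact hC q x (Pth.mono (ED_sub E D) hx)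
    have hP2 : ∀ q₁ ∈ D.erase q, FinRep φ {z | Pth (ED E (D.erase q)) q₁ q' z} := by
      intro q₁ hq₁
      exact ih (D.erase q) (Finset.erase_ssubset hq) q₁ hq₁ q'
    let κ : Type := Option (Σ q₁ : ↥(D.erase q), ↥(E q q₁))
    have hκ : Finite κ := by
      have : ∀ q₁ : ↥(D.erase q), Finite ↥(E q q₁) := fun q₁ => (hE _ _).to_subtype
      infer_instance
    refine FinRep.cover (κ := κ) (fun c => match c with
      | none => {z | q' = q ∧ Pth (ED E D) q q z}
      | some a => {z | Pth (ED E D) q q z} *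
          ({(a.2 : N)} * {z | Pth (ED E (D.erase q)) a.1 q' z})) ?_ ?_ ?_
    · rintro (_ | ⟨q₁, e⟩)
      · by_cases hqq : q' = q
        · have : {z | q' = q ∧ Pth (ED E D) q q z} = {z | Pth (ED E D) q q z} := by
            ext z
            simp [hqq]
          show FinRep φ {z | q' = q ∧ Pth (ED E D) q q z}
          rw [this]
          exact hloop
        · have : {z | q' = q ∧ Pth (ED E D) q q z} = ∅ := by
            ext z
            simp [hqq]
          show FinRep φ {z | q' = q ∧ Pth (ED E D) q q z}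
          rw [this]
          exact FinRep.of_finite Set.finite_empty
      · exact hloop.mul ((FinRep.of_finite (Set.finite_singleton _)).mul (hP2 _ q₁.2))
    · rintro (_ | ⟨q₁, e⟩)
      · rintro z ⟨rfl, hz⟩
        exact hz
      · rintro _ ⟨g, hg, _, ⟨e', he', w, hw, rfl⟩, rfl⟩
        rw [Set.mem_singleton_iff] at he'
        subst he'
        have hq1 : (q₁ : V) ∈ D := Finset.mem_of_mem_erase q₁.2
        have h1 : (e : N) ∈ ED E D q q₁ := ⟨e.2, hq, hq1⟩
        have h2 : Pth (ED E D) q₁ q' w := by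
          refine Pth.mono ?_ hw
          rintro i j x ⟨hx, hi, hj⟩
          exact ⟨hx, Finset.mem_of_mem_erase hi, Finset.mem_of_mem_erase hj⟩
        exact Pth.trans hg (Pth.trans (Pth.single h1) h2)
    · intro z hz
      rcases Pth.last hz with hqq | ⟨g, q₁, e, w, h1, h2, h3, h4, rfl⟩
      · refine ⟨none, hqq, ?_⟩
        have hz' := hz
        rw [Set.mem_ofPred_eq, hqq] at hz'
        exact hz'
      · exact ⟨some ⟨⟨q₁, h1⟩, ⟨e, h2⟩⟩, g, h3, _, ⟨e, Set.mem_singleton _, w, h4, rfl⟩, rfl⟩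

theorem FinRep.paths (φ : N →* Matrix (Fin s) (Fin s) K) {V : Type} [Finite V] (E : V → V → Set N)
    (hE : ∀ i j, (E i j).Finite) (hC : ∀ i z, Pth E i i z → Neat (φ z)) (i j : V) :
    FinRep φ {z | Pth E i j z} := by
  classical
  have : Fintype V := Fintype.ofFinite V
  have h := FinRep.paths_aux φ E hE hC Finset.univ i (Finset.mem_univ i) j
  have e : ∀ i j, ED E Finset.univ i j = E i j := by
    intro i j
    ext x
    simp [ED]
  have e' : ED E Finset.univ = E := by
    funext i j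
    exact e i j
  rwa [e'] at h

/-- the same with a finite group of colours: paths whose colour is trivial are neat -/
theorem FinRep.colour (φ : N →* Matrix (Fin s) (Fin s) K) {C : Type} [Group C] [Finite C] (π : N →* C)
    (hC : ∀ z, π z = 1 → Neat (φ z)) {V : Type} [Finite V] (E : V → V → Set N)
    (hE : ∀ i j, (E i j).Finite) (i j : V) : FinRep φ {z | Pth E i j z} := by
  classical
  let E' : V × C → V × C → Set N := fun a b => {e | e ∈ E a.1 b.1 ∧ b.2 = a.2 * π e}
  have hE' : ∀ a b, (E' a b).Finite := fun a b => (hE a.1 b.1).subset fun e he => he.1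
  have h1 : ∀ a b z, Pth E' a b z → Pth E a.1 b.1 z ∧ b.2 = a.2 * π z := by
    intro a b z h
    induction h with
    | nil => exact ⟨.nil, by rw [map_one, mul_one]⟩
    | cons _ he ih =>
      refine ⟨ih.1.cons he.1, ?_⟩
      rw [he.2, ih.2, map_mul, mul_assoc]
  have h2 : ∀ (i j : V) z, Pth E i j z → Pth E' (i, 1) (j, π z) z := by
    intro i j z h
    induction h with
    | nil => rw [map_one]; exact .nil
    | @cons j k z e _ he ih =>
      refine Pth.cons ih ⟨he, ?_⟩
      show π (z * e) = π z * π e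
      rw [map_mul]
  have h3 : ∀ c : C, FinRep φ {z | Pth E' (i, 1) (j, c) z} := by
    intro c
    refine FinRep.paths φ E' hE' ?_ _ _
    intro a z hz
    apply hC
    have h4 := (h1 _ _ _ hz).2
    exact (mul_eq_left.1 h4.symm)
  refine FinRep.cover (κ := C) (fun c => {z | Pth E' (i, 1) (j, c) z}) h3 ?_ ?_
  · intro c z hz
    exact (h1 _ _ _ hz).1
  · intro z hz
    exact ⟨π z, h2 i j z hz⟩

end

/-- paths in a finite graph labelled by invertible matrices -/
theorem FinRep.inv {K : Type} [Field K] [CharZero K] {S : Type} [Monoid S] {s : ℕ} {V : Type}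
    [Finite V] (E : V → V → Set (S × Matrix (Fin s) (Fin s) K)) (hE : ∀ i j, (E i j).Finite)
    (hunit : ∀ i j, ∀ e ∈ E i j, IsUnit e.2) (i j : V) :
    FinRep (MonoidHom.snd S (Matrix (Fin s) (Fin s) K)) {z | Pth E i j z} := by
  classical
  let B : Type := Σ i : V, Σ j : V, ↥(E i j)
  have hB : Finite B := by
    have : ∀ i j, Finite ↥(E i j) := fun i j => (hE i j).to_subtype
    infer_instance
  have h1 : ∀ a : B, ∃ g : Matrix.GeneralLinearGroup (Fin s) K,
      (g : Matrix (Fin s) (Fin s) K) = a.2.2.1.2 := fun a => hunit _ _ _ a.2.2.2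
  choose ρ hρ using h1
  have hR : Finite (Set.range ρ) := Set.finite_range ρ
  obtain ⟨T, hT⟩ := fg_subring (Group.closure_finite_fg (Set.range ρ))
    (Subgroup.closure (Set.range ρ)).subtype
  let A : Subring K := Subring.closure (T : Set K)
  obtain ⟨N, hN, hp⟩ := exists_residue_closure T
  obtain ⟨p₁, hp₁N, hp₁⟩ := Nat.exists_infinite_primes (N + 1)
  obtain ⟨p₂, hp₂N, hp₂⟩ := Nat.exists_infinite_primes (p₁ + 1)
  have hnd : ∀ p, N + 1 ≤ p → ¬ p ∣ N := fun p hp h => by
    have := Nat.le_of_dvd (Nat.pos_of_ne_zero hN) h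
    omega
  obtain ⟨F₁, i1, f1, hc1, ⟨φ₁⟩⟩ := hp p₁ hp₁ (hnd p₁ hp₁N)
  obtain ⟨F₂, i2, f2, hc2, ⟨φ₂⟩⟩ := hp p₂ hp₂ (hnd p₂ (by omega))
  have hne : ringChar F₁ ≠ ringChar F₂ := by
    rw [hc1, hc2]
    omega
  -- lifts of the letters
  let lift : B → Matrix.GeneralLinearGroup (Fin s) A := fun a =>
    toSub A (Subgroup.closure (Set.range ρ)).subtype hT ⟨ρ a, Subgroup.subset_closure ⟨a, rfl⟩⟩
  have hlift : ∀ a, gmat A s (lift a) = a.2.2.1.2 := by
    intro a
    rw [← hρ a]
    rfl
  let ψ : S × Matrix.GeneralLinearGroup (Fin s) A →* S × Matrix (Fin s) (Fin s) K :=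
    (MonoidHom.id S).prodMap (gmat A s)
  have hψ : Function.Injective ψ := by
    rintro ⟨a, g⟩ ⟨b, h⟩ hab
    have h2 := Prod.mk.inj hab
    exact Prod.ext h2.1 (gmat_inj A s h2.2)
  let E' : V → V → Set (S × Matrix.GeneralLinearGroup (Fin s) A) := fun i j => ψ ⁻¹' (E i j)
  have hE' : ∀ i j, (E' i j).Finite := fun i j => (hE i j).preimage hψ.injOn
  have h6 : ψ '' {z | Pth E' i j z} = {z | Pth E i j z} := by
    apply Set.Subset.antisymm
    · rintro _ ⟨z, hz, rfl⟩
      have hz' : Pth E' i j z := hz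
      show Pth E i j (ψ z)
      clear hz
      induction hz' with
      | nil => rw [map_one]; exact .nil
      | cons _ he ih =>
        rw [map_mul]
        exact ih.cons he
    · intro z hz
      have hz' : Pth E i j z := hz
      clear hz
      induction hz' with
      | nil => exact ⟨1, .nil, map_one ψ⟩
      | @cons j k z e _ he ih =>
        obtain ⟨z', hz', hzz⟩ := ih
        let a : B := ⟨j, k, ⟨e, he⟩⟩
        have h7 : ψ (e.1, lift a) = e := Prod.ext rfl (hlift a)
        refine ⟨z' * (e.1, lift a), Pth.cons hz' ?_, ?_⟩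
        · show ψ _ ∈ E j k
          rw [h7]
          exact he
        · rw [map_mul, h7, hzz]
  let C : Type := Matrix.GeneralLinearGroup (Fin s) F₁ × Matrix.GeneralLinearGroup (Fin s) F₂
  let π : S × Matrix.GeneralLinearGroup (Fin s) A →* C :=
    ((Matrix.GeneralLinearGroup.map φ₁).prod (Matrix.GeneralLinearGroup.map φ₂)).comp
      (MonoidHom.snd S _)
  have h3 := FinRep.colour ((gmat A s).comp (MonoidHom.snd S _)) π (by
      intro z hz
      have hz1 : Matrix.GeneralLinearGroup.map φ₁ z.2 = 1 := congrArg Prod.fst hz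
      have hz2 : Matrix.GeneralLinearGroup.map φ₂ z.2 = 1 := congrArg Prod.snd hz
      refine ⟨⟨gmat A s z.2⁻¹, ?_⟩, ker_two_neat A φ₁ φ₂ hne (MonoidHom.id _) z.2 hz1 hz2⟩
      show gmat A s z.2⁻¹ * gmat A s z.2 = 1
      rw [← map_mul, inv_mul_cancel, map_one]) E' hE' i j
  have h5 := FinRep.image (φ := MonoidHom.snd S (Matrix (Fin s) (Fin s) K)) ψ 1 1 (by
    intro z
    rw [one_mul, mul_one]
    rfl) h3
  rwa [h6] at h5

section

variable {N : Type} [Monoid N] {V B : Type}

theorem SP_rep {K : Type} [Field K] {s : ℕ} {φ : N →* Matrix (Fin s) (Fin s) K}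
    {src tgt : B → V} {lab : B → N} {U R : V → V → Set N} (hRU : ∀ i j, R i j ⊆ U i j)
    (hR : ∀ i j, ∀ u ∈ U i j, RepPt φ (U i j) (R i j) u) {b b' : B} {z : N}
    (h : SP src tgt lab U b b' z) :
    RepPt φ {z | SP src tgt lab U b b' z} {z | SP src tgt lab R b b' z} z := by
  induction h with
  | nil => exact RepPt.self SP.nil
  | @cons b' b'' z u hz hu ih =>
    have h1 := RepPt.mul ih (hR _ _ u hu) hu (fun x hx => SP.mono hRU hx)
      (P := {z | SP src tgt lab U b b' z} * U (tgt b') (src b''))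
      (R := {z | SP src tgt lab R b b' z} * R (tgt b') (src b''))
      (fun x hx y hy => Set.mul_mem_mul hx hy) (fun x hx y hy => Set.mul_mem_mul hx hy)
    refine RepPt.mul h1 (RepPt.self (P := {lab b''}) (R := {lab b''}) rfl) rfl
      (Set.mul_subset_mul (fun x hx => SP.mono hRU hx) (hRU _ _)) ?_ ?_
    · rintro _ ⟨x, hx, y, hy, rfl⟩ e he
      rw [Set.mem_singleton_iff] at he
      subst he
      exact SP.cons hx hy
    · rintro _ ⟨x, hx, y, hy, rfl⟩ e he
      rw [Set.mem_singleton_iff] at he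
      subst he
      exact SP.cons hx hy

end

/-- **Main theorem on paths**: the set of labels of the paths between two vertices of a finite graph
labelled by elements of a monoid with matrices over a field of characteristic 0 has a finite set of
representatives. -/
theorem FinRep.main {K : Type} [Field K] [CharZero K] {S : Type} [Monoid S] (s : ℕ) :
    ∀ (V : Type) [Finite V] (E : V → V → Set (S × Matrix (Fin s) (Fin s) K)),
      (∀ i j, (E i j).Finite) → ∀ i j,
        FinRep (MonoidHom.snd S (Matrix (Fin s) (Fin s) K)) {z | Pth E i j z} := by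
  classical
  induction s with
  | zero =>
    intro V _ E hE i j
    refine FinRep.inv E hE ?_ i j
    intro i j e _
    rw [Subsingleton.elim e.2 1]
    exact isUnit_one
  | succ s ih =>
    intro V _ E hE i j
    -- invertible edges
    let EI : V → V → Set (S × Matrix (Fin (s + 1)) (Fin (s + 1)) K) :=
      fun i j => {e | e ∈ E i j ∧ IsUnit e.2}
    have hEI : ∀ i j, EI i j ⊆ E i j := fun i j e he => he.1
    have hI : ∀ i j, FinRep (MonoidHom.snd S (Matrix (Fin (s + 1)) (Fin (s + 1)) K))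
        {z | Pth EI i j z} :=
      fun i j => FinRep.inv EI (fun i j => (hE i j).subset (hEI i j)) (fun i j e he => he.2) i j
    choose R hRU hRfin hRrep using hI
    -- singular edges
    let B : Type := Σ i : V, Σ j : V, ↥{e | e ∈ E i j ∧ ¬ IsUnit e.2}
    have hB : Finite B := by
      have : ∀ i j, Finite ↥{e | e ∈ E i j ∧ ¬ IsUnit e.2} :=
        fun i j => ((hE i j).subset (fun e he => he.1)).to_subtype
      infer_instance
    let src : B → V := fun b => b.1
    let tgt : B → V := fun b => b.2.1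
    let lab : B → S × Matrix (Fin (s + 1)) (Fin (s + 1)) K := fun b => b.2.2.1
    have hlab : ∀ b, lab b ∈ E (src b) (tgt b) := fun b => b.2.2.2.1
    have hfac : ∀ b, ∃ (β : Matrix (Fin (s + 1)) (Fin s) K) (α : Matrix (Fin s) (Fin (s + 1)) K),
        (lab b).2 = β * α := fun b => exists_factor _ b.2.2.2.2
    choose β α hβα using hfac
    -- the smaller graph
    let E' : B → B → Set (S × Matrix (Fin s) (Fin s) K) := fun b b' =>
      (fun u => ((lab b).1 * u.1, α b * u.2 * β b')) '' R (tgt b) (src b')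
    have hE' : ∀ b b', (E' b b').Finite := fun b b' => (hRfin _ _).image _
    have hsmall := ih B E' hE'
    let Ψ : B → B → S × Matrix (Fin s) (Fin s) K → S × Matrix (Fin (s + 1)) (Fin (s + 1)) K :=
      fun b b' z => (z.1 * (lab b').1, β b * z.2 * α b')
    have hSP : ∀ b b', {z | SP src tgt lab R b b' z} = Ψ b b' '' {z | Pth E' b b' z} := by
      intro b b'
      apply Set.Subset.antisymm
      · intro z hz
        have hz' : SP src tgt lab R b b' z := hz
        clear hz
        induction hz' with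
        | nil =>
          refine ⟨1, .nil, ?_⟩
          refine Prod.ext ?_ ?_
          · show 1 * (lab b).1 = _
            rw [one_mul]
          · show β b * 1 * α b = _
            rw [Matrix.mul_one, hβα]
        | @cons b' b'' z u _ hu ihz =>
          obtain ⟨z', hz', rfl⟩ := ihz
          refine ⟨z' * ((lab b').1 * u.1, α b' * u.2 * β b''), Pth.cons hz' ⟨u, hu, rfl⟩, ?_⟩
          refine Prod.ext ?_ ?_
          · show z'.1 * ((lab b').1 * u.1) * (lab b'').1 = z'.1 * (lab b').1 * u.1 * (lab b'').1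
            simp only [mul_assoc]
          · show β b * (z'.2 * (α b' * u.2 * β b'')) * α b'' =
              β b * z'.2 * α b' * u.2 * (lab b'').2
            rw [hβα b'']
            simp only [Matrix.mul_assoc]
      · rintro _ ⟨z, hz, rfl⟩
        have hz' : Pth E' b b' z := hz
        clear hz
        show SP src tgt lab R b b' _
        induction hz' with
        | nil =>
          have h1 : Ψ b b 1 = lab b := by
            refine Prod.ext ?_ ?_
            · show 1 * (lab b).1 = _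
              rw [one_mul]
            · show β b * 1 * α b = _
              rw [Matrix.mul_one, hβα]
          rw [h1]
          exact SP.nil
        | @cons b' b'' z e _ he ihz =>
          obtain ⟨u, hu, rfl⟩ := he
          have h1 : Ψ b b'' (z * ((lab b').1 * u.1, α b' * u.2 * β b'')) =
              Ψ b b' z * u * lab b'' := by
            refine Prod.ext ?_ ?_
            · show z.1 * ((lab b').1 * u.1) * (lab b'').1 = z.1 * (lab b').1 * u.1 * (lab b'').1
              simp only [mul_assoc]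
            · show β b * (z.2 * (α b' * u.2 * β b'')) * α b'' =
                β b * z.2 * α b' * u.2 * (lab b'').2
              rw [hβα b'']
              simp only [Matrix.mul_assoc]
          rw [h1]
          exact SP.cons ihz hu
    have hSPR : ∀ b b', FinRep (MonoidHom.snd S (Matrix (Fin (s + 1)) (Fin (s + 1)) K))
        {z | SP src tgt lab R b b' z} := by
      intro b b'
      rw [hSP]
      exact FinRep.image (Ψ b b') (β b) (α b') (fun z => rfl) (hsmall b b')
    have hSPU : ∀ b b', FinRep (MonoidHom.snd S (Matrix (Fin (s + 1)) (Fin (s + 1)) K))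
        {z | SP src tgt lab (fun i j => {x | Pth EI i j x}) b b' z} := by
      intro b b'
      refine FinRep.trans (hSPR b b') (fun z hz => SP.mono hRU hz) ?_
      intro z hz
      exact SP_rep hRU hRrep hz
    -- all paths
    refine FinRep.cover (κ := Option (B × B)) (fun c => match c with
      | none => {z | Pth EI i j z}
      | some c => {z | Pth EI i (src c.1) z} *
          ({z | SP src tgt lab (fun i j => {x | Pth EI i j x}) c.1 c.2 z} *
            {z | Pth EI (tgt c.2) j z})) ?_ ?_ ?_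
    · rintro (_ | ⟨b, b'⟩)
      · exact ⟨_, hRU i j, hRfin i j, hRrep i j⟩
      · exact FinRep.mul ⟨_, hRU _ _, hRfin _ _, hRrep _ _⟩
          (FinRep.mul (hSPU b b') ⟨_, hRU _ _, hRfin _ _, hRrep _ _⟩)
    · rintro (_ | ⟨b, b'⟩)
      · exact fun z hz => Pth.mono hEI hz
      · rintro _ ⟨u, hu, _, ⟨w, hw, v, hv, rfl⟩, rfl⟩
        exact (Pth.mono hEI hu).trans ((SP.path hEI hlab hw).trans (Pth.mono hEI hv))
    · intro z hz
      have hsplit := Pth.split (E := E) (EI := EI) (src := src) (tgt := tgt) (lab := lab) (by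
        intro i j e he
        by_cases hu : IsUnit e.2
        · exact Or.inl ⟨he, hu⟩
        · exact Or.inr ⟨⟨i, j, ⟨e, he, hu⟩⟩, rfl, rfl, rfl⟩) hz
      rcases hsplit with h | ⟨b, b', u, w, v, h1, h2, h3, rfl⟩
      · exact ⟨none, h⟩
      · exact ⟨some (b, b'), u, h1, _, ⟨w, h2, v, h3, rfl⟩, rfl⟩

section

variable {K : Type} [Field K] [CharZero K] {S : Type} [Monoid S] {s : ℕ}

theorem FinRep.rep (ρ : S →* Matrix (Fin s) (Fin s) K) {V : Type} [Finite V] (E : V → V → Set S)
    (hE : ∀ i j, (E i j).Finite) (i j : V) : FinRep ρ {z | Pth E i j z} := by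
  classical
  let ψ : S →* S × Matrix (Fin s) (Fin s) K := (MonoidHom.id S).prod ρ
  let E' : V → V → Set (S × Matrix (Fin s) (Fin s) K) := fun i j => ψ '' E i j
  have h1 : ∀ i j z, Pth E i j z → Pth E' i j (ψ z) := by
    intro i j z h
    induction h with
    | nil => rw [map_one]; exact .nil
    | cons _ he ih =>
      rw [map_mul]
      exact ih.cons ⟨_, he, rfl⟩
  have h2 : ∀ i j z, Pth E' i j z → ∃ z', Pth E i j z' ∧ ψ z' = z := by
    intro i j z h
    induction h with
    | nil => exact ⟨1, .nil, map_one ψ⟩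
    | cons _ he ih =>
      obtain ⟨z', hz', rfl⟩ := ih
      obtain ⟨e', he', rfl⟩ := he
      exact ⟨z' * e', hz'.cons he', map_mul ψ _ _⟩
  obtain ⟨R, hR1, hR2, hR3⟩ := FinRep.main s V E' (fun i j => (hE i j).image ψ) i j
  refine ⟨Prod.fst '' R, ?_, hR2.image _, ?_⟩
  · rintro _ ⟨z, hz, rfl⟩
    obtain ⟨z', hz', rfl⟩ := h2 i j z (hR1 hz)
    exact hz'
  · intro z hz n On Rel hT ι A y a1
    obtain ⟨r, hr, h4⟩ := hR3 (ψ z) (h1 i j z hz) n On Rel hT ι A y
      (by
        intro t x hx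
        obtain ⟨z', hz', rfl⟩ := h2 i j x hx
        exact a1 t z' hz')
    obtain ⟨z', hz', rfl⟩ := h2 i j r (hR1 hr)
    exact ⟨z', ⟨ψ z', hr, rfl⟩, h4⟩

theorem FinRep.rational (ρ : S →* Matrix (Fin s) (Fin s) K) {𝓛 : Set S} (h : IsRational 𝓛) :
    FinRep ρ 𝓛 := by
  obtain ⟨V, hV, E, I, F, hE, rfl⟩ := h
  refine FinRep.cover (κ := ↥I × ↥F) (fun c => {z | Pth E c.1 c.2 z})
    (fun c => FinRep.rep ρ E hE _ _) ?_ ?_
  · intro c z hz
    exact ⟨c.1, c.1.2, c.2, c.2.2, hz⟩
  · rintro z ⟨i, hi, j, hj, hz⟩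
    exact ⟨(⟨i, hi⟩, ⟨j, hj⟩), hz⟩

end

end Pool.Agent.T6.H35.AF
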