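import Pool.Agent.T6.H35.AF.Uni

set_option autoImplicit false

/-!
# Specialisation of curves `𝔾_m → W`
-/

namespace Pool.Agent.T6.H35.AF

open Polynomial

/-- the polynomial `t ^ (N M) F(p(t) / t ^ N)` -/
noncomputable def hpoly {k A : Type} [Field k] [CommRing A] [Algebra k A] {n : ℕ}
    (p : Fin n → Polynomial A) (N M : ℕ) (F : MvPolynomial (Fin n) k) : Polynomial A :=
  ∑ m ∈ F.support, C (algebraMap k A (F.coeff m)) * X ^ (N * (M - ∑ i, m i)) *
    ∏ i, (p i) ^ (m i)

theorem hpoly_map {k A B : Type} [Field k] [CommRing A] [CommRing B] [Algebra k A] [Algebra k B]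
    {n : ℕ} (φ : A →ₐ[k] B) (p : Fin n → Polynomial A) (N M : ℕ) (F : MvPolynomial (Fin n) k) :
    (hpoly p N M F).map (φ : A →+* B) = hpoly (fun i => (p i).map (φ : A →+* B)) N M F := by
  unfold hpoly
  rw [Polynomial.map_sum]
  refine Finset.sum_congr rfl fun m _ => ?_
  rw [Polynomial.map_mul, Polynomial.map_mul, Polynomial.map_C, Polynomial.map_pow,
    Polynomial.map_X, Polynomial.map_prod]
  congr 1
  · congr 2
    exact φ.commutes _
  · exact Finset.prod_congr rfl fun i _ => Polynomial.map_pow _ _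

theorem hpoly_eval {k L : Type} [Field k] [Field L] [Algebra k L] {n : ℕ}
    (p : Fin n → Polynomial L) (N M : ℕ) (F : MvPolynomial (Fin n) k) (hM : F.totalDegree ≤ M)
    (t : L) (ht : t ≠ 0) :
    (hpoly p N M F).eval t = t ^ (N * M) * MvPolynomial.aeval (crvPt p N t) F := by
  unfold hpoly
  rw [eval_finsetSum, MvPolynomial.aeval_def, MvPolynomial.eval₂_eq', Finset.mul_sum]
  refine Finset.sum_congr rfl fun m hm => ?_
  have h1 : ∑ i, m i ≤ M := by
    have h2 := MvPolynomial.le_totalDegree hm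
    rw [Finsupp.sum_fintype _ _ (by simp)] at h2
    omega
  rw [eval_mul, eval_mul, eval_C, eval_pow, eval_X, eval_prod]
  have h3 : ∏ i, crvPt p N t i ^ m i = (∏ i, ((p i) ^ (m i)).eval t) / t ^ (N * ∑ i, m i) := by
    rw [Finset.mul_sum, ← Finset.prod_pow_eq_pow_sum, ← Finset.prod_div_distrib]
    refine Finset.prod_congr rfl fun i _ => ?_
    unfold crvPt
    rw [div_pow, eval_pow, ← pow_mul]
  rw [h3]
  have h4 : t ^ (N * M) = t ^ (N * (M - ∑ i, m i)) * t ^ (N * ∑ i, m i) := by
    rw [← pow_add, ← mul_add, Nat.sub_add_cancel h1]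
  rw [h4]
  field_simp

theorem on_iff {k L : Type} [Field k] [Field L] [Infinite L] [Algebra k L] {n : ℕ}
    (p : Fin n → Polynomial L) (N M : ℕ) (F : MvPolynomial (Fin n) k) (hM : F.totalDegree ≤ M) :
    (∀ t : L, t ≠ 0 → MvPolynomial.aeval (crvPt p N t) F = 0) ↔ hpoly p N M F = 0 := by
  constructor
  · intro h
    refine Polynomial.eq_zero_of_infinite_isRoot _ (Set.Infinite.mono ?_
      (Set.finite_singleton (0 : L)).infinite_compl)
    intro t ht
    have ht' : t ≠ 0 := ht
    show (hpoly p N M F).eval t = 0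
    rw [hpoly_eval p N M F hM t ht', h t ht', mul_zero]
  · intro h t ht
    have h1 := hpoly_eval p N M F hM t ht
    rw [h, eval_zero] at h1
    exact (mul_eq_zero.1 h1.symm).resolve_left (pow_ne_zero _ ht)

/-- **Specialisation** of a nonconstant curve -/
theorem specialise {k L : Type} [Field k] [CharZero k] [Field L] [Algebra k L] {n : ℕ}
    (FF : Set (MvPolynomial (Fin n) k)) (p : Fin n → Polynomial L) (N : ℕ)
    (hp : ∀ t : L, t ≠ 0 → ∀ F ∈ FF, MvPolynomial.aeval (crvPt p N t) F = 0)
    (u v : L) (hu : u ≠ 0) (hv : v ≠ 0) (huv : crvPt p N u ≠ crvPt p N v) :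
    ∃ (K : Type) (_ : Field K) (_ : Algebra k K) (_ : Module.Finite k K)
      (q : Fin n → Polynomial K),
      (∀ t : K, t ≠ 0 → ∀ F ∈ FF, MvPolynomial.aeval (crvPt q N t) F = 0) ∧
      ∃ u v : K, u ≠ 0 ∧ v ≠ 0 ∧ crvPt q N u ≠ crvPt q N v := by
  classical
  have hL0 : CharZero L := charZero_of_injective_algebraMap (FaithfulSMul.algebraMap_injective k L)
  have hinf : Infinite L := inferInstance
  obtain ⟨i0, hi0⟩ : ∃ i, crvPt p N u i ≠ crvPt p N v i := by
    by_contra h
    push Not at h
    exact huv (funext h)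
  -- a polynomial expression for the difference
  set δ : L := (p i0).eval u * v ^ N - (p i0).eval v * u ^ N with hδ
  have hδ0 : δ ≠ 0 := by
    intro h0
    apply hi0
    unfold crvPt
    rw [div_eq_div_iff (pow_ne_zero _ hu) (pow_ne_zero _ hv)]
    exact sub_eq_zero.1 h0
  let D : ℕ := Finset.univ.sup (fun i => (p i).natDegree) + 1
  have hD : ∀ i m, D ≤ m → (p i).coeff m = 0 := by
    intro i m hm
    apply Polynomial.coeff_eq_zero_of_natDegree_lt
    have := Finset.le_sup (f := fun i => (p i).natDegree) (Finset.mem_univ i)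
    omega
  let S : Finset L := (Finset.univ.image (fun q : Fin D × Fin n => (p q.2).coeff q.1)) ∪
    {u, v, (u * v * δ)⁻¹}
  let R : Subalgebra k L := Algebra.adjoin k (S : Set L)
  have hft : Algebra.FiniteType k R := by
    rw [← Subalgebra.fg_iff_finiteType]
    exact Subalgebra.fg_adjoin_finset S
  have hcR : ∀ (m : ℕ) (i : Fin n), (p i).coeff m ∈ R := by
    intro m i
    by_cases hm : m < D
    · apply Algebra.subset_adjoin
      simp only [S, Finset.coe_union, Set.mem_union, Finset.mem_coe]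
      left
      exact Finset.mem_image.2 ⟨(⟨m, hm⟩, i), Finset.mem_univ _, rfl⟩
    · rw [hD i m (by omega)]
      exact zero_mem R
  have hSR : ∀ x ∈ ({u, v, (u * v * δ)⁻¹} : Finset L), x ∈ R := by
    intro x hx
    apply Algebra.subset_adjoin
    simp only [S, Finset.coe_union, Set.mem_union, Finset.mem_coe]
    exact Or.inr hx
  let uR : R := ⟨u, hSR u (by simp)⟩
  let vR : R := ⟨v, hSR v (by simp)⟩
  let wR : R := ⟨(u * v * δ)⁻¹, hSR _ (by simp)⟩
  -- the lifted curve
  have hlift : ∀ i, ∃ q : Polynomial R, q.map (R.val : R →+* L) = p i := by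
    intro i
    have h1 : p i ∈ Polynomial.lifts (R.val : R →+* L) := by
      rw [Polynomial.lifts_iff_coeff_lifts]
      intro m
      exact ⟨⟨(p i).coeff m, hcR m i⟩, rfl⟩
    exact (Polynomial.mem_lifts _).1 h1
  choose q hq using hlift
  let δR : R := (q i0).eval uR * vR ^ N - (q i0).eval vR * uR ^ N
  have hδR : (R.val : R →+* L) δR = δ := by
    show (R.val : R →+* L) ((q i0).eval uR * vR ^ N - (q i0).eval vR * uR ^ N) = δ
    rw [map_sub, map_mul, map_mul, map_pow, map_pow, ← Polynomial.eval_map_apply,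
      ← Polynomial.eval_map_apply, hq]
    rfl
  have hunit : uR * vR * δR * wR = 1 := by
    apply Subtype.val_injective
    show (uR * vR * δR * wR : R).val = (1 : L)
    have h1 : (uR * vR * δR * wR : R).val = u * v * δ * (u * v * δ)⁻¹ := by
      have e : (δR : L) = δ := hδR
      show (uR : L) * (vR : L) * (δR : L) * (wR : L) = _
      rw [e]
    rw [h1, mul_inv_cancel₀ (mul_ne_zero (mul_ne_zero hu hv) hδ0)]
  have hqF : ∀ F ∈ FF, hpoly q N F.totalDegree F = 0 := by
    intro F hF
    have h1 := (on_iff p N F.totalDegree F le_rfl).1 (fun t ht => hp t ht F hF)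
    have h2 := hpoly_map R.val q N F.totalDegree F
    have h3 : (fun i => (q i).map (R.val : R →+* L)) = p := funext hq
    rw [h3, h1] at h2
    exact (Polynomial.map_eq_zero_iff Subtype.val_injective).1 h2
  -- the maximal ideal
  obtain ⟨m, hm⟩ := Ideal.exists_maximal R
  let K : Type := R ⧸ m
  let _ : Field K := Ideal.Quotient.field m
  let φ : R →ₐ[k] K := Ideal.Quotient.mkₐ k m
  have hφ : Function.Surjective φ := Ideal.Quotient.mkₐ_surjective k m
  have hftK : Algebra.FiniteType k K := Algebra.FiniteType.of_surjective φ hφ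
  have hfin : Module.Finite k K := finite_of_finite_type_of_isJacobsonRing k K
  have hK0 : CharZero K := charZero_of_injective_algebraMap (FaithfulSMul.algebraMap_injective k K)
  have hinfK : Infinite K := inferInstance
  have hφu : φ uR * φ vR * φ δR * φ wR = 1 := by
    rw [← map_mul, ← map_mul, ← map_mul, hunit, map_one]
  have hu' : φ uR ≠ 0 := fun h => by simp [h] at hφu
  have hv' : φ vR ≠ 0 := fun h => by simp [h] at hφu
  have hδ' : φ δR ≠ 0 := fun h => by simp [h] at hφu
  refine ⟨K, inferInstance, inferInstance, hfin, fun i => (q i).map (φ : R →+* K), ?_, φ uR,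
    φ vR, hu', hv', ?_⟩
  · intro t ht F hF
    refine (on_iff _ N F.totalDegree F le_rfl).2 ?_ t ht
    rw [← hpoly_map φ q N F.totalDegree F, hqF F hF, Polynomial.map_zero]
  · intro heq
    apply hδ'
    have h1 := congrFun heq i0
    unfold crvPt at h1
    rw [div_eq_div_iff (pow_ne_zero _ hu') (pow_ne_zero _ hv')] at h1
    have h2 : φ δR = ((q i0).map (φ : R →+* K)).eval (φ uR) * φ vR ^ N -
        ((q i0).map (φ : R →+* K)).eval (φ vR) * φ uR ^ N := by
      show φ ((q i0).eval uR * vR ^ N - (q i0).eval vR * uR ^ N) = _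
      rw [map_sub, map_mul, map_mul, map_pow, map_pow]
      have h3 : ∀ x : R, ((q i0).map (φ : R →+* K)).eval (φ x) = φ ((q i0).eval x) := fun x =>
        Polynomial.eval_map_apply (φ : R →+* K) x
      rw [h3, h3]
    rw [h2, h1, sub_self]

/-- extension of the base field of a curve -/
theorem on_map {k K L : Type} [Field k] [CharZero k] [Field K] [Field L] [Algebra k K]
    [Algebra k L] {n : ℕ} (FF : Set (MvPolynomial (Fin n) k)) (φ : K →ₐ[k] L)
    (p : Fin n → Polynomial K) (N : ℕ)
    (hp : ∀ t : K, t ≠ 0 → ∀ F ∈ FF, MvPolynomial.aeval (crvPt p N t) F = 0) :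
    ∀ t : L, t ≠ 0 → ∀ F ∈ FF,
      MvPolynomial.aeval (crvPt (fun i => (p i).map (φ : K →+* L)) N t) F = 0 := by
  have hL0 : CharZero L := charZero_of_injective_algebraMap (FaithfulSMul.algebraMap_injective k L)
  have hK0 : CharZero K := charZero_of_injective_algebraMap (FaithfulSMul.algebraMap_injective k K)
  intro t ht F hF
  refine (on_iff _ N F.totalDegree F le_rfl).2 ?_ t ht
  rw [← hpoly_map φ p N F.totalDegree F,
    (on_iff p N F.totalDegree F le_rfl).1 (fun t ht => hp t ht F hF), Polynomial.map_zero]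

theorem crvPt_map {K L : Type} [Field K] [Field L] {n : ℕ} (φ : K →+* L)
    (p : Fin n → Polynomial K) (N : ℕ) (t : K) :
    crvPt (fun i => (p i).map φ) N (φ t) = fun i => φ (crvPt p N t i) := by
  funext i
  unfold crvPt
  rw [map_div₀, map_pow, Polynomial.eval_map_apply]

/-- the closed set `W ⊆ 𝔸ⁿ` given by `FF` contains no nonconstant image of `𝔾_m` over the algebraic
closure of `k` -/
def GmFree {k : Type} [Field k] {n : ℕ} (FF : Set (MvPolynomial (Fin n) k)) : Prop :=
  ∀ (p : Fin n → Polynomial (AlgebraicClosure k)) (N : ℕ),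
    (∀ t : AlgebraicClosure k, t ≠ 0 → ∀ F ∈ FF, MvPolynomial.aeval (crvPt p N t) F = 0) →
    ∀ u v : AlgebraicClosure k, u ≠ 0 → v ≠ 0 → crvPt p N u = crvPt p N v

theorem GmFree.ext {k : Type} [Field k] [CharZero k] {n : ℕ} {FF : Set (MvPolynomial (Fin n) k)}
    (h : GmFree FF) {L : Type} [Field L] [Algebra k L] {a b : Fin n → L} (hab : Link FF a b) :
    a = b := by
  obtain ⟨p, N, hp, u, v, hu, hv, rfl, rfl⟩ := hab
  by_contra hne
  obtain ⟨K, iK, iA, iF, q, h1, u', v', h2, h3, h4⟩ := specialise FF p N hp u v hu hv hne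
  have hint : Algebra.IsAlgebraic k K := Algebra.IsAlgebraic.of_finite k K
  let τ : K →ₐ[k] AlgebraicClosure k := IsAlgClosed.lift
  apply h4
  have h5 := h _ N (on_map FF τ q N h1) (τ u') (τ v') ((map_ne_zero τ).2 h2)
    ((map_ne_zero τ).2 h3)
  have h6 := crvPt_map (τ : K →+* AlgebraicClosure k) q N
  have h7 : (fun i => τ (crvPt q N u' i)) = fun i => τ (crvPt q N v' i) := by
    have e1 := h6 u'
    have e2 := h6 v'
    exact e1.symm.trans (h5.trans e2)
  funext i
  exact (τ : K →+* AlgebraicClosure k).injective (congrFun h7 i)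

theorem GmFree.conn {k : Type} [Field k] [CharZero k] {n : ℕ} {FF : Set (MvPolynomial (Fin n) k)}
    (h : GmFree FF) {L : Type} [Field L] [Algebra k L] {a b : Fin n → L} (hab : Conn FF a b) :
    a = b := by
  induction hab with
  | rel a b h' => exact h.ext h'
  | refl a => rfl
  | symm a b _ ih => exact ih.symm
  | trans a b c _ _ ih1 ih2 => exact ih1.trans ih2

end Pool.Agent.T6.H35.AF
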