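import Pool.Agent.T6.H35.AF.Geo
import Pool.Agent.T6.H35.RS.Aut

set_option autoImplicit false

/-!
# Uniform finite sets of representatives, for chains of curves `𝔾_m → W`
-/

namespace Pool.Agent.T6.H35.AF

open Pool.Agent.T6.H35.RS (Neat Pth KU st st_surjective st_eq_iff st_eq_zero_iff st_ne_zero_iff nul
  mapRep)
open Polynomial

section dom

variable {K : Type} [Field K] {N : Type} {s n : ℕ}

/-- `z` is represented by one element of `R` in all good contexts -/
def Dom (On : (Fin n → K) → Prop) (Rel : (Fin n → K) → (Fin n → K) → Prop)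
    (φ : N → Matrix (Fin s) (Fin s) K) (P R : Set N) (z : N) : Prop :=
  ∃ r ∈ R, ∀ (A : Matrix (Fin n) (Fin s) K) (y : Fin s → K),
    (∀ x ∈ P, On (val A (φ x) y)) → Rel (val A (φ z) y) (val A (φ r) y)

theorem RepPt.dom {φ : N → Matrix (Fin s) (Fin s) K} {P R : Set N} {z : N}
    (h : RepPt φ P R z) {On : (Fin n → K) → Prop} {Rel : (Fin n → K) → (Fin n → K) → Prop}
    (hT : Tst On Rel) : Dom On Rel φ P R z := by
  let ι : Type := {c : Matrix (Fin n) (Fin s) K × (Fin s → K) //
    (∀ x ∈ P, On (val c.1 (φ x) c.2))}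
  obtain ⟨r, hr, h3⟩ := h n On Rel hT ι (fun c => c.1.1) (fun c => c.1.2)
    (fun c x hx => c.2 x hx)
  exact ⟨r, hr, fun A y h1 => h3 ⟨(A, y), h1⟩⟩

theorem Dom.mono {On : (Fin n → K) → Prop} {Rel : (Fin n → K) → (Fin n → K) → Prop}
    {φ : N → Matrix (Fin s) (Fin s) K} {P P' R R' : Set N} {z : N} (h : Dom On Rel φ P R z)
    (hP : P ⊆ P') (hR : R ⊆ R') : Dom On Rel φ P' R' z := by
  obtain ⟨r, hr, h3⟩ := h
  exact ⟨r, hR hr, fun A y h1 => h3 A y (fun x hx => h1 x (hP hx))⟩

theorem val_mul [Monoid N] (φ : N →* Matrix (Fin s) (Fin s) K)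
    (A : Matrix (Fin n) (Fin s) K) (y : Fin s → K) (a b : N) :
    val A (φ (a * b)) y = val A (φ a) ((φ b).mulVec y) := by
  unfold val
  rw [map_mul, ← Matrix.mulVec_mulVec]

theorem dom_paths [Monoid N] {V : Type} (E R : V → V → Set N) (φ : N →* Matrix (Fin s) (Fin s) K)
    (On : (Fin n → K) → Prop) (Rel : (Fin n → K) → (Fin n → K) → Prop)
    (htr : ∀ a b c, Rel a b → Rel b c → Rel a c)
    (h0 : ∀ i, Dom On Rel φ {z | Pth E i i z} (R i i) 1)
    (h1 : ∀ i j k, ∀ r ∈ R i j, ∀ e ∈ E j k, Dom On Rel φ {z | Pth E i k z} (R i k) (r * e))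
    {i j : V} {z : N} (hz : Pth E i j z) : Dom On Rel φ {z | Pth E i j z} (R i j) z := by
  induction hz with
  | nil => exact h0 i
  | @cons j k z e hz he ih =>
    obtain ⟨r, hr, h4⟩ := ih
    obtain ⟨r', hr', h5⟩ := h1 i j k r hr e he
    refine ⟨r', hr', fun A y h2 => ?_⟩
    have h6 := h4 A ((φ e).mulVec y) (fun x hx => by
      rw [← val_mul]
      exact h2 _ (Pth.cons hx he))
    rw [← val_mul, ← val_mul] at h6
    exact htr _ _ _ h6 (h5 A y h2)

end dom

section Ultra

variable {ι : Type} {U : Ultrafilter ι} {κ : ι → Type} [∀ i, Field (κ i)] {n s : ℕ}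

/-- evaluation at an index -/
abbrev ev (κ : ι → Type) [∀ i, Field (κ i)] (i : ι) : (∀ i, κ i) →+* κ i := Pi.evalRingHom κ i

/-- the limit of the closed sets given by the `FF i` -/
def FFA (U : Ultrafilter ι) (κ : ι → Type) [∀ i, Field (κ i)]
    (FF : ∀ i, Set (MvPolynomial (Fin n) (κ i))) : Set (MvPolynomial (Fin n) (KU U κ)) :=
  {F | ∃ G : MvPolynomial (Fin n) (∀ i, κ i), F = MvPolynomial.map (st U κ) G ∧
    ∀ᶠ i in (U : Filter ι), MvPolynomial.map (ev κ i) G ∈ FF i}

variable {d : ℕ} {FF : ∀ i, Set (MvPolynomial (Fin n) (κ i))}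

theorem aeval_st (G : MvPolynomial (Fin n) (∀ i, κ i)) (x : Fin n → ∀ i, κ i) :
    MvPolynomial.aeval (fun j => st U κ (x j)) (MvPolynomial.map (st U κ) G) =
      st U κ (MvPolynomial.eval x G) := by
  rw [MvPolynomial.aeval_def, Algebra.algebraMap_self, MvPolynomial.eval₂_map, RingHom.id_comp]
  have := MvPolynomial.eval₂_comp_left (st U κ) (RingHom.id _) x G
  rw [RingHom.comp_id] at this
  exact this.symm

theorem aeval_ev (G : MvPolynomial (Fin n) (∀ i, κ i)) (x : Fin n → ∀ i, κ i) (i : ι) :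
    MvPolynomial.aeval (fun j => x j i) (MvPolynomial.map (ev κ i) G) =
      (MvPolynomial.eval x G) i := by
  rw [MvPolynomial.aeval_def, Algebra.algebraMap_self, MvPolynomial.eval₂_map, RingHom.id_comp]
  have := MvPolynomial.eval₂_comp_left (ev κ i) (RingHom.id _) x G
  rw [RingHom.comp_id] at this
  exact this.symm

theorem FFA_on (x : Fin n → ∀ i, κ i)
    (h : ∀ᶠ i in (U : Filter ι), ∀ F ∈ FF i, MvPolynomial.aeval (fun j => x j i) F = 0) :
    ∀ F ∈ FFA U κ FF, MvPolynomial.aeval (fun j => st U κ (x j)) F = 0 := by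
  rintro _ ⟨G, rfl, hG⟩
  rw [aeval_st, st_eq_zero_iff]
  filter_upwards [h, hG] with i h2 h3
  rw [← aeval_ev]
  exact h2 _ h3

/-- polynomials over the fields `κ i` of bounded degree come from a polynomial over the product -/
theorem exists_liftA (d : ℕ) (F : ∀ i, MvPolynomial (Fin n) (κ i))
    (hF : ∀ i, (F i).totalDegree ≤ d) :
    ∃ G : MvPolynomial (Fin n) (∀ i, κ i), ∀ i, MvPolynomial.map (ev κ i) G = F i := by
  classical
  let T : Finset (Fin n →₀ ℕ) := (Finset.range (d + 1)).biUnion fun e =>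
    (Finset.univ : Finset (Fin n)).finsuppAntidiag e
  have hT : ∀ m : Fin n →₀ ℕ, m.degree ≤ d → m ∈ T := by
    intro m hm
    rw [Finset.mem_biUnion]
    refine ⟨m.degree, Finset.mem_range.2 (by omega), ?_⟩
    rw [Finset.mem_finsuppAntidiag]
    have h1 : m.degree = ∑ i, m i := Finsupp.degree_eq_sum m
    rw [h1]
    simp
  let G : MvPolynomial (Fin n) (∀ i, κ i) :=
    ∑ m ∈ T, MvPolynomial.monomial m (fun i => (F i).coeff m)
  refine ⟨G, ?_⟩
  intro i
  show MvPolynomial.map (ev κ i) (∑ m ∈ T, MvPolynomial.monomial m (fun i => (F i).coeff m)) = _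
  rw [map_sum]
  ext m
  rw [MvPolynomial.coeff_sum]
  simp only [MvPolynomial.map_monomial, MvPolynomial.coeff_monomial]
  rw [Finset.sum_ite_eq' T m]
  split_ifs with hm
  · rfl
  · by_contra hne
    apply hm
    apply hT
    have h1 := MvPolynomial.le_totalDegree (MvPolynomial.mem_support_iff.2 (Ne.symm hne))
    have h2 : m.degree = m.sum fun _ e => e := by
      rw [Finsupp.degree_apply]
      rfl
    rw [h2]
    exact h1.trans (hF i)

theorem st_crvPt (q : Fin n → Polynomial (∀ i, κ i)) (N : ℕ) (t : ∀ i, κ i)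
    (ht : st U κ t ≠ 0) :
    crvPt (fun j => (q j).map (st U κ)) N (st U κ t) =
      fun j => st U κ (fun i => crvPt (fun j => (q j).map (ev κ i)) N (t i) j) := by
  funext j
  unfold crvPt
  rw [Polynomial.eval_map_apply, div_eq_iff (pow_ne_zero _ ht), ← map_pow, ← map_mul, st_eq_iff]
  rw [st_ne_zero_iff] at ht
  filter_upwards [ht] with i hi
  have h1 : ((q j).map (ev κ i)).eval (t i) = (Polynomial.eval t (q j)) i :=
    Polynomial.eval_map_apply (ev κ i) t
  rw [Pi.mul_apply, Pi.pow_apply, h1, div_mul_cancel₀ _ (pow_ne_zero _ hi)]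

theorem link_st (hd : ∀ i, ∀ F ∈ FF i, F.totalDegree ≤ d) (x y : Fin n → ∀ i, κ i)
    (h : Link (FFA U κ FF) (fun j => st U κ (x j)) (fun j => st U κ (y j))) :
    ∀ᶠ i in (U : Filter ι), Link (FF i) (fun j => x j i) (fun j => y j i) := by
  classical
  obtain ⟨p, N, hp, u, v, hu, hv, hpu, hpv⟩ := h
  have hlift : ∀ j, ∃ q : Polynomial (∀ i, κ i), q.map (st U κ) = p j :=
    fun j => Polynomial.map_surjective (st U κ) (st_surjective U κ) (p j)
  choose q hq using hlift
  obtain ⟨u, rfl⟩ := st_surjective U κ u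
  obtain ⟨v, rfl⟩ := st_surjective U κ v
  have hpq : p = fun j => (q j).map (st U κ) := funext fun j => (hq j).symm
  subst hpq
  have key : ∀ᶠ i in (U : Filter ι), ∀ t : κ i, t ≠ 0 → ∀ F ∈ FF i,
      MvPolynomial.aeval (crvPt (fun j => (q j).map (ev κ i)) N t) F = 0 := by
    by_contra hcon
    have hcon' := Ultrafilter.eventually_not.2 hcon
    have hch : ∀ i, ∃ (t : κ i) (F : MvPolynomial (Fin n) (κ i)), F.totalDegree ≤ d ∧
        ((¬ ∀ t : κ i, t ≠ 0 → ∀ F ∈ FF i,
          MvPolynomial.aeval (crvPt (fun j => (q j).map (ev κ i)) N t) F = 0) → t ≠ 0 ∧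
          F ∈ FF i ∧
          MvPolynomial.aeval (crvPt (fun j => (q j).map (ev κ i)) N t) F ≠ 0) := by
      intro i
      by_cases hi : ∀ t : κ i, t ≠ 0 → ∀ F ∈ FF i,
          MvPolynomial.aeval (crvPt (fun j => (q j).map (ev κ i)) N t) F = 0
      · exact ⟨0, 0, by simp, fun h => absurd hi h⟩
      · have hi' := hi
        push Not at hi'
        obtain ⟨t, ht, F, hF, hF0⟩ := hi'
        exact ⟨t, F, hd i F hF, fun _ => ⟨ht, hF, hF0⟩⟩
    choose t F hFd hF using hch
    obtain ⟨G, hG⟩ := exists_liftA d F hFd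
    have ht : st U κ t ≠ 0 := by
      rw [st_ne_zero_iff]
      filter_upwards [hcon'] with i hi
      exact (hF i hi).1
    have h1 := hp (st U κ t) ht (MvPolynomial.map (st U κ) G) ⟨G, rfl, by
      filter_upwards [hcon'] with i hi
      rw [hG]
      exact (hF i hi).2.1⟩
    rw [st_crvPt q N t ht, aeval_st, st_eq_zero_iff] at h1
    obtain ⟨i, hi1, hi2⟩ := (h1.and hcon').exists
    apply (hF i hi2).2.2
    have h2 := aeval_ev G (fun j i => crvPt (fun j => (q j).map (ev κ i)) N (t i) j) i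
    rw [hG, hi1] at h2
    exact h2
  rw [st_crvPt q N u hu] at hpu
  rw [st_crvPt q N v hv] at hpv
  have h1 : ∀ᶠ i in (U : Filter ι), ∀ j,
      crvPt (fun j => (q j).map (ev κ i)) N (u i) j = x j i :=
    Filter.eventually_all.2 fun j => (st_eq_iff U κ).1 (congrFun hpu j)
  have h2 : ∀ᶠ i in (U : Filter ι), ∀ j,
      crvPt (fun j => (q j).map (ev κ i)) N (v i) j = y j i :=
    Filter.eventually_all.2 fun j => (st_eq_iff U κ).1 (congrFun hpv j)
  rw [st_ne_zero_iff] at hu hv
  filter_upwards [key, h1, h2, hu, hv] with i k1 k2 k3 k4 k5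
  exact ⟨fun j => (q j).map (ev κ i), N, k1, u i, v i, k4, k5, funext k2, funext k3⟩

theorem conn_st (hd : ∀ i, ∀ F ∈ FF i, F.totalDegree ≤ d) (a b : Fin n → KU U κ)
    (h : Conn (FFA U κ FF) a b) : ∀ (x y : Fin n → ∀ i, κ i),
      (fun j => st U κ (x j)) = a → (fun j => st U κ (y j)) = b →
      ∀ᶠ i in (U : Filter ι), Conn (FF i) (fun j => x j i) (fun j => y j i) := by
  induction h with
  | rel a b h =>
    rintro x y rfl rfl
    filter_upwards [link_st hd x y h] with i hi
    exact Relation.EqvGen.rel _ _ hi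
  | refl a =>
    rintro x y rfl hy
    have h1 : ∀ᶠ i in (U : Filter ι), ∀ j, y j i = x j i :=
      Filter.eventually_all.2 fun j => (st_eq_iff U κ).1 (congrFun hy j)
    filter_upwards [h1] with i hi
    have : (fun j => y j i) = fun j => x j i := funext hi
    rw [this]
    exact Relation.EqvGen.refl _
  | symm a b _ ih =>
    intro x y hx hy
    filter_upwards [ih y x hy hx] with i hi
    exact Relation.EqvGen.symm _ _ hi
  | trans a b c _ _ ih1 ih2 =>
    intro x y hx hy
    have hlift : ∀ j, ∃ q : ∀ i, κ i, st U κ q = b j := fun j => st_surjective U κ (b j)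
    choose w hw using hlift
    filter_upwards [ih1 x w hx (funext hw), ih2 w y (funext hw) hy] with i h1 h2
    exact Relation.EqvGen.trans _ _ _ h1 h2

/-- the limit of representations -/
noncomputable def repL (U : Ultrafilter ι) (κ : ι → Type) [∀ i, Field (κ i)] {N : Type} [Monoid N]
    (ρ : ∀ i, N →* Matrix (Fin s) (Fin s) (κ i)) : N →* Matrix (Fin s) (Fin s) (KU U κ) :=
  RS.repL U κ ρ

theorem val_repL {N : Type} [Monoid N] (ρ : ∀ i, N →* Matrix (Fin s) (Fin s) (κ i))
    (A : ∀ i, Matrix (Fin n) (Fin s) (κ i)) (y : ∀ i, Fin s → κ i) (z : N) :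
    val (Matrix.of fun a b => st U κ (fun i => A i a b)) (repL U κ ρ z)
      (fun b => st U κ (fun i => y i b)) = fun j => st U κ (fun i => val (A i) (ρ i z) (y i) j) := by
  funext j
  have h1 : (fun i => val (A i) (ρ i z) (y i) j) =
      ∑ a, (fun i => A i j a) * ∑ b, (fun i => ρ i z a b) * fun i => y i b := by
    funext i
    simp only [val, Matrix.mulVec, dotProduct, Finset.sum_apply, Pi.mul_apply]
  rw [h1, map_sum]
  simp only [map_mul, map_sum]
  rfl

/-- **Transfer**: representatives for the limit are representatives almost everywhere -/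
theorem transfer_dom {N : Type} [Monoid N] (ρ : ∀ i, N →* Matrix (Fin s) (Fin s) (κ i))
    (hd : ∀ i, ∀ F ∈ FF i, F.totalDegree ≤ d) {P R : Set N} {z : N}
    (hT : Tst (fun a : Fin n → KU U κ => ∀ F ∈ FFA U κ FF, MvPolynomial.aeval a F = 0)
      (Conn (FFA U κ FF))) (h : RepPt (repL U κ ρ) P R z) :
    ∀ᶠ i in (U : Filter ι),
      Dom (fun a : Fin n → κ i => ∀ F ∈ FF i, MvPolynomial.aeval a F = 0) (Conn (FF i))
        (ρ i) P R z := by
  classical
  have hB := h.dom hT
  by_contra hcon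
  have hcon' := Ultrafilter.eventually_not.2 hcon
  have hch : ∀ i, ∀ r : N, ∃ (A : Matrix (Fin n) (Fin s) (κ i)) (y : Fin s → κ i),
      r ∈ R → (¬ Dom (fun a : Fin n → κ i => ∀ F ∈ FF i, MvPolynomial.aeval a F = 0)
        (Conn (FF i)) (ρ i) P R z) →
        (∀ x ∈ P, ∀ F ∈ FF i, MvPolynomial.aeval (val A (ρ i x) y) F = 0) ∧
        ¬ Conn (FF i) (val A (ρ i z) y) (val A (ρ i r) y) := by
    intro i r
    by_cases hi : Dom (fun a : Fin n → κ i => ∀ F ∈ FF i, MvPolynomial.aeval a F = 0)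
        (Conn (FF i)) (ρ i) P R z
    · exact ⟨0, 0, fun _ h => absurd hi h⟩
    · by_cases hr : r ∈ R
      · have hi' := hi
        unfold Dom at hi'
        push Not at hi'
        obtain ⟨A, y, h1, h3⟩ := hi' r hr
        exact ⟨A, y, fun _ _ => ⟨h1, h3⟩⟩
      · exact ⟨0, 0, fun h => absurd h hr⟩
  choose A y hAy using hch
  obtain ⟨r, hr, h2⟩ := hB
  have h3 := h2 (Matrix.of fun a b => st U κ (fun i => A i r a b))
    (fun b => st U κ (fun i => y i r b)) (by
      intro x hx
      rw [val_repL (fun i => ρ i) (fun i => A i r) (fun i => y i r)]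
      refine FFA_on (fun j i => val (A i r) (ρ i x) (y i r) j) ?_
      filter_upwards [hcon'] with i hi
      exact (hAy i r hr hi).1 x hx)
  rw [val_repL (fun i => ρ i) (fun i => A i r) (fun i => y i r),
    val_repL (fun i => ρ i) (fun i => A i r) (fun i => y i r)] at h3
  have h4 := conn_st hd _ _ h3 _ _ rfl rfl
  obtain ⟨i, hi1, hi2⟩ := (hcon'.and h4).exists
  exact (hAy i r hr hi1).2 hi2

end Ultra

/-- image of a chain under a surjective homomorphism of fields -/
theorem conn_surj {k L L' : Type} [Field k] [Field L] [Field L'] [Algebra k L] [Algebra k L']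
    {n : ℕ} (FF : Set (MvPolynomial (Fin n) k)) (ψ : L →ₐ[k] L') (hψ : Function.Surjective ψ)
    {a b : Fin n → L} (h : Conn FF a b) : Conn FF (fun i => ψ (a i)) (fun i => ψ (b i)) := by
  have hpt : ∀ (p : Fin n → Polynomial L) (N : ℕ) (t : L),
      crvPt (fun j => (p j).map (ψ : L →+* L')) N (ψ t) = fun i => ψ (crvPt p N t i) := by
    intro p N t
    funext i
    unfold crvPt
    rw [map_div₀, map_pow]
    congr 1
    exact Polynomial.eval_map_apply (ψ : L →+* L') t
  induction h with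
  | rel a b h =>
    refine Relation.EqvGen.rel _ _ ?_
    obtain ⟨p, N, hp, u, v, hu, hv, rfl, rfl⟩ := h
    refine ⟨fun j => (p j).map (ψ : L →+* L'), N, ?_, ψ u, ψ v, (map_ne_zero ψ).2 hu,
      (map_ne_zero ψ).2 hv, hpt p N u, hpt p N v⟩
    intro t ht F hF
    obtain ⟨t, rfl⟩ := hψ t
    rw [hpt]
    have h1 := hp t (fun h0 => ht (by rw [h0, map_zero])) F hF
    have h2 : MvPolynomial.aeval (fun i => ψ (crvPt p N t i)) F =
        ψ (MvPolynomial.aeval (crvPt p N t) F) := by
      rw [← MvPolynomial.comp_aeval_apply]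
    rw [h2, h1, map_zero]
  | refl a => exact Relation.EqvGen.refl _
  | symm a b _ ih => exact Relation.EqvGen.symm _ _ ih
  | trans a b c _ _ ih1 ih2 => exact Relation.EqvGen.trans _ _ _ ih1 ih2

/-- chains over the algebraic closure of an algebraically closed field -/
theorem conn_down {K : Type} [Field K] [IsAlgClosed K] {n : ℕ}
    (FF : Set (MvPolynomial (Fin n) K)) {a b : Fin n → K} (h : Conn FF (up K a) (up K b)) :
    Conn FF a b := by
  let ψ : AlgebraicClosure K →ₐ[K] K := IsAlgClosed.lift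
  have hψ : ∀ x : K, ψ (algebraMap K (AlgebraicClosure K) x) = x := fun x => ψ.commutes x
  have h1 := conn_surj FF ψ (fun x => ⟨_, hψ x⟩) h
  have h2 : ∀ a : Fin n → K, (fun i => ψ (up K a i)) = a := fun a => funext fun i => hψ (a i)
  rwa [h2, h2] at h1

theorem tst_closed {K : Type} [Field K] [CharZero K] [IsAlgClosed K] {n : ℕ}
    (FF : Set (MvPolynomial (Fin n) K)) :
    Tst (K := K) (fun a : Fin n → K => ∀ F ∈ FF, MvPolynomial.aeval a F = 0) (Conn FF) where
  refl := fun _ => Relation.EqvGen.refl _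
  symm := fun _ _ h => Relation.EqvGen.symm _ _ h
  trans := fun _ _ _ h h' => Relation.EqvGen.trans _ _ _ h h'
  sand := fun _ A g y hg hX => conn_down FF (conn_sand FF A g y hg hX)

/-- **Uniform finite sets of representatives** (algebraically closed fields) -/
theorem uniform {S : Type} [Monoid S] {V : Type} [Finite V] (E : V → V → Set S)
    (hE : ∀ i j, (E i j).Finite) (n d s : ℕ) :
    ∃ R : V → V → Set S, (∀ i j, R i j ⊆ {z | Pth E i j z}) ∧ (∀ i j, (R i j).Finite) ∧
      ∀ (K : Type) [Field K] [CharZero K] [IsAlgClosed K]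
        (FF : Set (MvPolynomial (Fin n) K)), (∀ F ∈ FF, F.totalDegree ≤ d) →
        ∀ (ρ : S →* Matrix (Fin s) (Fin s) K) (i j : V) (z : S), Pth E i j z →
          Dom (fun a : Fin n → K => ∀ F ∈ FF, MvPolynomial.aeval a F = 0) (Conn FF) ρ
            {z | Pth E i j z} (R i j) z := by
  classical
  by_contra hcon
  have hch : ∀ T : Finset S, ∃ (K : Type) (_ : Field K) (_ : CharZero K) (_ : IsAlgClosed K)
      (FF : Set (MvPolynomial (Fin n) K)) (ρ : S →* Matrix (Fin s) (Fin s) K) (i j : V)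
      (z : S), (∀ F ∈ FF, F.totalDegree ≤ d) ∧ Pth E i j z ∧
        ¬ (Dom (fun a : Fin n → K => ∀ F ∈ FF, MvPolynomial.aeval a F = 0) (Conn FF) ρ
            {z | Pth E i j z} ({z | z ∈ T ∧ Pth E i j z}) z) := by
    intro T
    by_contra hT
    apply hcon
    refine ⟨fun i j => {z | z ∈ T ∧ Pth E i j z}, fun i j z hz => hz.2,
      fun i j => T.finite_toSet.subset fun z hz => hz.1, ?_⟩
    intro K _ _ _ FF hF ρ i j z hz
    by_contra hd
    exact hT ⟨K, inferInstance, inferInstance, inferInstance, FF, ρ, i, j, z, hF, hz, hd⟩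
  choose κ iF iC iA FF ρ ci cj cz hhom hpth hnot using hch
  let U : Ultrafilter (Finset S) := Ultrafilter.of Filter.atTop
  have hU : ∀ T₀ : Finset S, ∀ᶠ T in (U : Filter (Finset S)), T₀ ⊆ T := by
    intro T₀
    exact (Ultrafilter.of_le (Filter.atTop : Filter (Finset S))) (Filter.eventually_ge_atTop T₀)
  have hT : Tst (fun a : Fin n → KU U κ => ∀ F ∈ FFA U κ FF, MvPolynomial.aeval a F = 0)
      (Conn (FFA U κ FF)) := tst_closed (FFA U κ FF)
  have hrep : ∀ i j, FinRep (repL U κ ρ) {z | Pth E i j z} :=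
    fun i j => FinRep.rep (repL U κ ρ) E hE i j
  choose R hR1 hR2 hR3 using hrep
  have htr : ∀ i j z, Pth E i j z → ∀ᶠ T in (U : Filter (Finset S)),
      Dom (fun a : Fin n → κ T => ∀ F ∈ FF T, MvPolynomial.aeval a F = 0) (Conn (FF T)) (ρ T)
        {z | Pth E i j z} (R i j) z :=
    fun i j z hz => transfer_dom ρ hhom hT (hR3 i j z hz)
  have h0 : ∀ᶠ T in (U : Filter (Finset S)), ∀ i,
      Dom (fun a : Fin n → κ T => ∀ F ∈ FF T, MvPolynomial.aeval a F = 0) (Conn (FF T)) (ρ T)
        {z | Pth E i i z} (R i i) 1 :=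
    Filter.eventually_all.2 fun i => htr i i 1 .nil
  have h1 : ∀ᶠ T in (U : Filter (Finset S)), ∀ i j k, ∀ r ∈ R i j, ∀ e ∈ E j k,
      Dom (fun a : Fin n → κ T => ∀ F ∈ FF T, MvPolynomial.aeval a F = 0) (Conn (FF T)) (ρ T)
        {z | Pth E i k z} (R i k) (r * e) := by
    refine Filter.eventually_all.2 fun i => Filter.eventually_all.2 fun j =>
      Filter.eventually_all.2 fun k => ?_
    refine (Filter.eventually_all_finite (hR2 i j)).2 fun r hr => ?_
    refine (Filter.eventually_all_finite (hE j k)).2 fun e he => ?_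
    exact htr i k (r * e) (Pth.cons (hR1 i j hr) he)
  let T₀ : Finset S := (Set.finite_iUnion fun c : V × V => hR2 c.1 c.2).toFinset
  obtain ⟨T, hT0, hT1, hT2⟩ := ((hU T₀).and (h0.and h1)).exists
  apply hnot T
  have hsub : R (ci T) (cj T) ⊆ {z | z ∈ T ∧ Pth E (ci T) (cj T) z} := by
    intro z hz
    refine ⟨hT0 ?_, hR1 _ _ hz⟩
    rw [Set.Finite.mem_toFinset]
    exact Set.mem_iUnion.2 ⟨(ci T, cj T), hz⟩
  exact (dom_paths E R (ρ T) (fun a : Fin n → κ T => ∀ F ∈ FF T, MvPolynomial.aeval a F = 0)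
    (Conn (FF T)) (fun a b c h h' => Relation.EqvGen.trans a b c h h') hT1 hT2
    (hpth T)).mono subset_rfl hsub

end Pool.Agent.T6.H35.AF
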